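import Mathlib

/-!
Connected sets, forts and private neighbours in a finite graph.
-/

set_option linter.unusedSectionVars false

namespace Pool.Agent.Q185.PSD

open Finset

variable {V : Type*} [Fintype V] [DecidableEq V]

/-- `W` is nonempty and induces a connected subgraph (closure form). -/
def Cn (G : SimpleGraph V) (W : Finset V) : Prop :=
  W.Nonempty ∧ ∀ P : V → Prop, (∃ x ∈ W, P x) →
    (∀ a ∈ W, ∀ b ∈ W, P a → G.Adj a b → P b) → ∀ x ∈ W, P x

/-- `F` is a connected set no outside vertex of which has exactly one neighbour in it. -/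
def Ft (G : SimpleGraph V) (F : Finset V) : Prop :=
  Cn G F ∧ ∀ u, u ∉ F → ∀ s ∈ F, G.Adj u s → ∃ s' ∈ F, s' ≠ s ∧ G.Adj u s'

/-- `W` contains no fort. -/
def Ff (G : SimpleGraph V) (W : Finset V) : Prop := ∀ F ⊆ W, ¬ Ft G F

/-- `u` is outside `W` and its only neighbour in `W` is `s`. -/
def Pv (G : SimpleGraph V) (W : Finset V) (s u : V) : Prop :=
  u ∉ W ∧ G.Adj u s ∧ ∀ s' ∈ W, G.Adj u s' → s' = s

/-- The standing hypotheses. -/
structure Good (G : SimpleGraph V) : Prop where
  conn : Cn G univ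
  two : ∃ a b : V, a ≠ b
  tw : ∀ u v, G.Adj u v → ∃ x, x ≠ u ∧ x ≠ v ∧ ¬ (G.Adj x u ↔ G.Adj x v)
  star : ∀ W, Cn G W → Ff G W → ∀ s ∈ W, ∃ u, Pv G W s u

/-- A connected set without forts of size `m`. -/
def Bs (G : SimpleGraph V) (m : ℕ) (W : Finset V) : Prop :=
  Cn G W ∧ Ff G W ∧ W.card = m

/-- `m` bounds the size of connected sets without forts. -/
def Mx (G : SimpleGraph V) (m : ℕ) : Prop := ∀ W, Cn G W → Ff G W → W.card ≤ m

variable {G : SimpleGraph V}

lemma cn_single (G : SimpleGraph V) (v : V) : Cn G {v} := by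
  refine ⟨⟨v, by simp⟩, ?_⟩
  intro P hx _ x hxv
  obtain ⟨z, hz, hPz⟩ := hx
  simp only [mem_singleton] at hz hxv
  subst hz; subst hxv; exact hPz

lemma cn_insert {W : Finset V} (hW : Cn G W) {b s : V} (hs : s ∈ W) (hbs : G.Adj b s) :
    Cn G (insert b W) := by
  refine ⟨⟨b, by simp⟩, ?_⟩
  intro P hx hcl
  have hPW : ∀ x ∈ W, P x := by
    apply hW.2 P
    · obtain ⟨z, hz, hPz⟩ := hx
      rcases mem_insert.1 hz with h | h
      · subst h
        exact ⟨s, hs, hcl z (by simp) s (mem_insert_of_mem hs) hPz hbs⟩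
      · exact ⟨z, h, hPz⟩
    · intro a ha b' hb' hPa hab
      exact hcl a (mem_insert_of_mem ha) b' (mem_insert_of_mem hb') hPa hab
  intro x hx'
  rcases mem_insert.1 hx' with h | h
  · subst h
    exact hcl s (mem_insert_of_mem hs) x (by simp) (hPW s hs) hbs.symm
  · exact hPW x h

lemma cn_star {S : Finset V} {y : V} (h : ∀ s ∈ S, G.Adj y s) : Cn G (insert y S) := by
  refine ⟨⟨y, by simp⟩, ?_⟩
  intro P hx hcl
  have hPy : P y := by
    obtain ⟨z, hz, hPz⟩ := hx
    rcases mem_insert.1 hz with h' | h'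
    · subst h'; exact hPz
    · exact hcl z hz y (by simp) hPz (h z h').symm
  intro x hx'
  rcases mem_insert.1 hx' with h' | h'
  · subst h'; exact hPy
  · exact hcl y (by simp) x hx' hPy (h x h')

section good

variable (hG : Good G)
include hG

lemma exists_nb (v : V) : ∃ u, G.Adj u v := by
  by_contra hcon
  push Not at hcon
  obtain ⟨a, b, hab⟩ := hG.two
  have := hG.conn.2 (fun x => x = v) ⟨v, by simp, rfl⟩ (by
    intro a _ b _ ha hab
    subst ha
    exact absurd hab.symm (hcon b))
  exact hab ((this a (by simp)).trans (this b (by simp)).symm)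

lemma not_ft_single (v : V) : ¬ Ft G {v} := by
  intro h
  obtain ⟨u, hu⟩ := exists_nb hG v
  obtain ⟨s', hs', hne, _⟩ := h.2 u (by simp only [mem_singleton]; exact hu.ne) v (by simp) hu
  exact hne (by simpa using hs')

lemma ft_nb {F : Finset V} (hF : Ft G F) {b : V} (hb : b ∈ F) :
    ∃ s ∈ F, s ≠ b ∧ G.Adj b s := by
  by_contra hcon
  push Not at hcon
  have h1 : ∀ x ∈ F, x = b := by
    apply hF.1.2 (fun x => x = b) ⟨b, hb, rfl⟩
    intro a _ c hc hab hadj
    subst hab
    by_contra hne
    exact hcon c hc hne hadj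
  have h2 : F = {b} := by
    ext x
    simp only [mem_singleton]
    exact ⟨h1 x, fun h => h ▸ hb⟩
  exact not_ft_single hG b (h2 ▸ hF)

lemma ff_single (v : V) : Ff G {v} := by
  intro F hF hft
  obtain ⟨b, hb⟩ := hft.1.1
  obtain ⟨s, hs, hne, _⟩ := ft_nb hG hft hb
  have h1 := mem_singleton.1 (hF hb)
  have h2 := mem_singleton.1 (hF hs)
  exact hne (h2.trans h1.symm)

lemma ff_pair {u v : V} (huv : G.Adj u v) : Ff G {u, v} := by
  intro F hF hft
  obtain ⟨b, hb⟩ := hft.1.1
  obtain ⟨s, hs, hne, _⟩ := ft_nb hG hft hb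
  have h1 : b = u ∨ b = v := by simpa using hF hb
  have h2 : s = u ∨ s = v := by simpa using hF hs
  have hu : u ∈ F := by
    rcases h1 with h | h
    · exact h ▸ hb
    · rcases h2 with h' | h'
      · exact h' ▸ hs
      · exact absurd (h'.trans h.symm) hne
  have hv : v ∈ F := by
    rcases h1 with h | h
    · rcases h2 with h' | h'
      · exact absurd (h'.trans h.symm) hne
      · exact h' ▸ hs
    · exact h ▸ hb
  obtain ⟨x, hxu, hxv, hx⟩ := hG.tw u v huv
  have hxF : x ∉ F := by
    intro hx'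
    have : x = u ∨ x = v := by simpa using hF hx'
    tauto
  apply hx
  constructor
  · intro h
    obtain ⟨s', hs', hne', h'⟩ := hft.2 x hxF u hu h
    have : s' = u ∨ s' = v := by simpa using hF hs'
    rcases this with h'' | h''
    · exact absurd h'' hne'
    · exact h'' ▸ h'
  · intro h
    obtain ⟨s', hs', hne', h'⟩ := hft.2 x hxF v hv h
    have : s' = u ∨ s' = v := by simpa using hF hs'
    rcases this with h'' | h''
    · exact h'' ▸ h'
    · exact absurd h'' hne'

lemma cn_pair {u v : V} (huv : G.Adj u v) : Cn G {u, v} := by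
  have h := cn_star (G := G) (S := {v}) (y := u) (by simpa using huv)
  simpa using h

lemma exists_max : ∃ m, 2 ≤ m ∧ Mx G m ∧ ∃ W, Bs G m W := by
  classical
  obtain ⟨a, b, hab⟩ := hG.two
  obtain ⟨u, hu⟩ := exists_nb hG a
  obtain ⟨W, hW, hmax⟩ := Finset.exists_max_image
    ((univ : Finset (Finset V)).filter (fun W => Cn G W ∧ Ff G W)) (fun W => W.card)
    ⟨{u, a}, by simp only [mem_filter, mem_univ, true_and]; exact ⟨cn_pair hG hu, ff_pair hG hu⟩⟩
  simp only [mem_filter, mem_univ, true_and] at hW hmax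
  refine ⟨W.card, ?_, ?_, W, hW.1, hW.2, rfl⟩
  · have := hmax {u, a} ⟨cn_pair hG hu, ff_pair hG hu⟩
    rwa [card_pair hu.ne] at this
  · intro W' h1 h2
    exact hmax W' ⟨h1, h2⟩

variable {m : ℕ} (hm : Mx G m)
include hm

/-- L1 -/
lemma nb_in {W : Finset V} (hW : Bs G m W) {b : V} (hb : b ∉ W) : ∃ s ∈ W, G.Adj b s := by
  have key : ∀ x ∈ (univ : Finset V), x ∈ W ∨ ∃ s ∈ W, G.Adj x s := by
    apply hG.conn.2
    · obtain ⟨w, hw⟩ := hW.1.1
      exact ⟨w, mem_univ _, Or.inl hw⟩
    · intro a _ c _ ha hac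
      rcases ha with ha | ⟨s, hs, has⟩
      · exact Or.inr ⟨a, ha, hac.symm⟩
      · by_contra hcon
        push Not at hcon
        obtain ⟨hc1, hc2⟩ := hcon
        by_cases haW : a ∈ W
        · exact hc2 a haW hac.symm
        have hcn : Cn G (insert a W) := cn_insert hW.1 hs has
        have hnf : ¬ Ff G (insert a W) := by
          intro hff
          have := hm _ hcn hff
          rw [card_insert_of_notMem haW, hW.2.2] at this
          omega
        unfold Ff at hnf
        push Not at hnf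
        obtain ⟨F, hFs, hF⟩ := hnf
        have haF : a ∈ F := by
          by_contra haF
          apply hW.2.1 F _ hF
          intro x hx
          rcases mem_insert.1 (hFs hx) with h | h
          · subst h; exact absurd hx haF
          · exact h
        have hcF : c ∉ F := by
          intro hcF
          rcases mem_insert.1 (hFs hcF) with h | h
          · subst h; exact hac.ne rfl
          · exact hc1 h
        obtain ⟨s', hs', hne, hadj⟩ := hF.2 c hcF a haF hac.symm
        rcases mem_insert.1 (hFs hs') with h | h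
        · exact hne h
        · exact hc2 s' h hadj
  rcases key b (mem_univ _) with h | h
  · exact absurd h hb
  · exact h

/-- L2, existence -/
lemma exists_fort {W : Finset V} (hW : Bs G m W) {b : V} (hb : b ∉ W) :
    ∃ F ⊆ insert b W, Ft G F ∧ b ∈ F := by
  obtain ⟨s, hs, hbs⟩ := nb_in hG hm hW hb
  have hcn : Cn G (insert b W) := cn_insert hW.1 hs hbs
  have hnf : ¬ Ff G (insert b W) := by
    intro hff
    have := hm _ hcn hff
    rw [card_insert_of_notMem hb, hW.2.2] at this
    omega
  unfold Ff at hnf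
  push Not at hnf
  obtain ⟨F, hFs, hF⟩ := hnf
  refine ⟨F, hFs, hF, ?_⟩
  by_contra haF
  apply hW.2.1 F _ hF
  intro x hx
  rcases mem_insert.1 (hFs hx) with h | h
  · subst h; exact absurd hx haF
  · exact h

omit hG hm in
/-- L2, membership -/
lemma mem_fort_iff {W F : Finset V} {b s p : V} (hFs : F ⊆ insert b W)
    (hF : Ft G F) (hbF : b ∈ F) (hp : Pv G W s p) (hpb : p ≠ b) : s ∈ F ↔ G.Adj p b := by
  have hpF : p ∉ F := by
    intro h
    rcases mem_insert.1 (hFs h) with h' | h'
    · exact hpb h'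
    · exact hp.1 h'
  constructor
  · intro hs
    obtain ⟨s', hs', hne, hadj⟩ := hF.2 p hpF s hs hp.2.1
    rcases mem_insert.1 (hFs hs') with h' | h'
    · exact h' ▸ hadj
    · exact absurd (hp.2.2 s' h' hadj) hne
  · intro hadj
    obtain ⟨s', hs', hne, hadj'⟩ := hF.2 p hpF b hbF hadj
    rcases mem_insert.1 (hFs hs') with h' | h'
    · exact absurd h' hne
    · exact (hp.2.2 s' h' hadj') ▸ hs'

omit hm in
lemma mem_fort_self {W F : Finset V} {b s : V} (hFs : F ⊆ insert b W)
    (hF : Ft G F) (hbF : b ∈ F) (hp : Pv G W s b) : s ∈ F := by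
  obtain ⟨s', hs', hne, hadj⟩ := ft_nb hG hF hbF
  rcases mem_insert.1 (hFs hs') with h' | h'
  · exact absurd h' hne
  · exact (hp.2.2 s' h' hadj) ▸ hs'

/-- L3 -/
lemma pv_unique {W : Finset V} (hW : Bs G m W) {s p q : V} (hp : Pv G W s p) (hq : Pv G W s q) :
    p = q := by
  by_contra hpq
  obtain ⟨F, hFs, hF, hpF⟩ := exists_fort hG hm hW hp.1
  have h1 : s ∈ F := mem_fort_self hG hFs hF hpF hp
  have h2 : G.Adj q p := (mem_fort_iff hFs hF hpF hq (Ne.symm hpq)).1 h1
  obtain ⟨x, hxq, hxp, hx⟩ := hG.tw q p h2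
  apply hx
  by_cases hxW : x ∈ W
  · constructor
    · intro h
      have := hq.2.2 x hxW h.symm
      subst this
      exact hp.2.1.symm
    · intro h
      have := hp.2.2 x hxW h.symm
      subst this
      exact hq.2.1.symm
  · obtain ⟨F', hFs', hF', hxF'⟩ := exists_fort hG hm hW hxW
    have e1 := mem_fort_iff hFs' hF' hxF' hq (Ne.symm hxq)
    have e2 := mem_fort_iff hFs' hF' hxF' hp (Ne.symm hxp)
    rw [G.adj_comm x q, G.adj_comm x p, ← e1, ← e2]

omit hm in
lemma fort_unique {W F F' : Finset V} (hcn : Cn G W) (hff : Ff G W) {b : V}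
    (hFs : F ⊆ insert b W) (hF : Ft G F) (hbF : b ∈ F)
    (hFs' : F' ⊆ insert b W) (hF' : Ft G F') (hbF' : b ∈ F') : F = F' := by
  ext s
  by_cases hsb : s = b
  · subst hsb; simp [hbF, hbF']
  by_cases hsW : s ∈ W
  · obtain ⟨p, hp⟩ := hG.star W hcn hff s hsW
    by_cases hpb : p = b
    · subst hpb
      have h1 := mem_fort_self hG hFs hF hbF hp
      have h2 := mem_fort_self hG hFs' hF' hbF' hp
      simp [h1, h2]
    · rw [mem_fort_iff hFs hF hbF hp hpb, mem_fort_iff hFs' hF' hbF' hp hpb]
  · constructor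
    · intro h
      rcases mem_insert.1 (hFs h) with h' | h'
      · exact absurd h' hsb
      · exact absurd h' hsW
    · intro h
      rcases mem_insert.1 (hFs' h) with h' | h'
      · exact absurd h' hsb
      · exact absurd h' hsW

omit hm in
/-- L4 -/
lemma exchange {W F : Finset V} (hW : Bs G m W) {b f : V} (hb : b ∉ W)
    (hFs : F ⊆ insert b W) (hF : Ft G F) (hbF : b ∈ F) (hf : f ∈ F) (hfb : f ≠ b)
    (hcn : Cn G (insert b (W.erase f))) : Bs G m (insert b (W.erase f)) := by
  have hfW : f ∈ W := by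
    rcases mem_insert.1 (hFs hf) with h | h
    · exact absurd h hfb
    · exact h
  refine ⟨hcn, ?_, ?_⟩
  · intro F' hFs' hF'
    have hsub : F' ⊆ insert b W := hFs'.trans (insert_subset_insert _ (erase_subset _ _))
    have hbF' : b ∈ F' := by
      by_contra hbF'
      apply hW.2.1 F' _ hF'
      intro x hx
      rcases mem_insert.1 (hsub hx) with h | h
      · subst h; exact absurd hx hbF'
      · exact h
    have := fort_unique hG hW.1 hW.2.1 hFs hF hbF hsub hF' hbF'
    rw [this] at hf
    rcases mem_insert.1 (hFs' hf) with h | h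
    · exact hfb h
    · exact (notMem_erase f W) h
  · rw [card_insert_of_notMem (fun h => hb (mem_of_mem_erase h)), card_erase_of_mem hfW, hW.2.2]
    have : 0 < W.card := card_pos.2 ⟨f, hfW⟩
    rw [hW.2.2] at this
    omega

end good

end Pool.Agent.Q185.PSD
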