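import Pool.Agent.Q185.PSD.Star

/-!
Centred frames: independent sets of the maximum size with a common neighbour.
-/

set_option linter.unusedSectionVars false

namespace Pool.Agent.Q185.PSD

open Finset

variable {V : Type*} [Fintype V] [DecidableEq V]
variable {G : SimpleGraph V}

lemma CF.notMem {m : ℕ} {S : Finset V} {y : V} (h : CF G m S y) : y ∉ S :=
  fun hy => G.loopless.irrefl _ (h.2.2 y hy)

section good

variable (hG : Good G) {m : ℕ} (hm : Mx G m)
include hG

/-- a star with independent leaf set and an outside vertex seeing only the centre -/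
lemma bs_star {S : Finset V} {y : V} (hy : y ∉ S) (hS : S.card + 1 = m)
    (hind : ∀ a ∈ S, ∀ b ∈ S, ¬ G.Adj a b) (hadj : ∀ a ∈ S, G.Adj y a)
    (hw : ∀ F ⊆ S, ¬ Ft G (insert y F)) : Bs G m (insert y S) := by
  refine ⟨cn_star hadj, ?_, ?_⟩
  · intro F hFs hF
    have hyF : y ∈ F := by
      by_contra hyF
      have hFS : F ⊆ S := by
        intro x hx
        rcases mem_insert.1 (hFs hx) with h | h
        · subst h; exact absurd hx hyF
        · exact h
      obtain ⟨b, hb⟩ := hF.1.1
      obtain ⟨s, hs, _, hbs⟩ := ft_nb hG hF hb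
      exact hind b (hFS hb) s (hFS hs) hbs
    apply hw (F.erase y)
    · intro x hx
      rcases mem_insert.1 (hFs (mem_of_mem_erase hx)) with h | h
      · exact absurd h (mem_erase.1 hx).1
      · exact h
    · rw [insert_erase hyF]; exact hF
  · rw [card_insert_of_notMem hy]; exact hS

lemma cf_bs {S : Finset V} {y l : V} (h : CF G m S y) (hl : l ∈ S) :
    Bs G m (insert y (S.erase l)) := by
  apply bs_star hG
  · exact fun h' => h.notMem (mem_of_mem_erase h')
  · rw [card_erase_of_mem hl, h.1]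
    have : 0 < S.card := card_pos.2 ⟨l, hl⟩
    rw [h.1] at this
    omega
  · intro a ha b hb
    exact h.2.1 a (mem_of_mem_erase ha) b (mem_of_mem_erase hb)
  · intro a ha
    exact h.2.2 a (mem_of_mem_erase ha)
  · intro F hFs hF
    have hlF : l ∉ insert y F := by
      intro h'
      rcases mem_insert.1 h' with h'' | h''
      · subst h''; exact h.notMem hl
      · exact (mem_erase.1 (hFs h'')).1 rfl
    obtain ⟨s', hs', hne, hadj⟩ := hF.2 l hlF y (mem_insert_self _ _) (h.2.2 l hl).symm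
    rcases mem_insert.1 hs' with h' | h'
    · exact hne h'
    · exact h.2.1 l hl s' (mem_of_mem_erase (hFs h')) hadj

omit hG in
lemma cf_pv {S : Finset V} {y l : V} (h : CF G m S y) (hl : l ∈ S) :
    Pv G (insert y (S.erase l)) y l := by
  refine ⟨?_, (h.2.2 l hl).symm, ?_⟩
  · intro h'
    rcases mem_insert.1 h' with h'' | h''
    · subst h''; exact h.notMem hl
    · exact (mem_erase.1 h'').1 rfl
  · intro s hs hadj
    rcases mem_insert.1 hs with h'' | h''
    · exact h''
    · exact absurd hadj (h.2.1 l hl s (mem_of_mem_erase h''))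

include hm

/-- S1 -/
lemma cf_two {S : Finset V} {y : V} (h : CF G m S y) (h2 : 2 ≤ m) {v : V} (hv : v ∉ S)
    {l : V} (hl : l ∈ S) : ∃ l' ∈ S, l' ≠ l ∧ G.Adj v l' := by
  by_cases hvy : v = y
  · subst hvy
    have hc : 1 < S.card := by rw [h.1]; omega
    obtain ⟨l', hl', hne⟩ := exists_mem_ne hc l
    exact ⟨l', hl', hne, h.2.2 l' hl'⟩
  · by_contra hcon
    push Not at hcon
    have hvW : v ∉ insert y (S.erase l) := by
      intro h'
      rcases mem_insert.1 h' with h'' | h''
      · exact hvy h''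
      · exact hv (mem_of_mem_erase h'')
    have hB := cf_bs hG h hl
    obtain ⟨s, hs, hvs⟩ := nb_in hG hm hB hvW
    have hno : ∀ s' ∈ insert y (S.erase l), G.Adj v s' → s' = y := by
      intro s' hs' hadj
      rcases mem_insert.1 hs' with h'' | h''
      · exact h''
      · exact absurd hadj (hcon s' (mem_of_mem_erase h'') (mem_erase.1 h'').1)
    have hsy := hno s hs hvs
    subst hsy
    have := pv_unique hG hm hB ⟨hvW, hvs, hno⟩ (cf_pv h hl)
    subst this
    exact hv hl

/-- S2 -/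
lemma cf_fort {S : Finset V} {y : V} (h : CF G m S y) {v : V} (hv : v ∉ S)
    {l : V} (hl : l ∈ S) (hvl : ¬ G.Adj v l) :
    ∃ F, Ft G F ∧ v ∈ F ∧ ∀ x, x ∈ F ↔ x = v ∨ (x ∈ S ∧ G.Adj v x) := by
  have hvy : v ≠ y := by
    intro h'; subst h'; exact hvl (h.2.2 l hl)
  have hB := cf_bs hG h hl
  have hvW : v ∉ insert y (S.erase l) := by
    intro h'
    rcases mem_insert.1 h' with h'' | h''
    · exact hvy h''
    · exact hv (mem_of_mem_erase h'')
  obtain ⟨F, hFs, hF, hvF⟩ := exists_fort hG hm hB hvW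
  have hlv : l ≠ v := by
    intro h'; subst h'; exact hv hl
  have hyF : y ∉ F := by
    intro hyF
    exact hvl ((mem_fort_iff hFs hF hvF (cf_pv h hl) hlv).1 hyF).symm
  have hFS : ∀ x ∈ F, x = v ∨ x ∈ S := by
    intro x hx
    rcases mem_insert.1 (hFs hx) with h' | h'
    · exact Or.inl h'
    · rcases mem_insert.1 h' with h'' | h''
      · subst h''; exact absurd hx hyF
      · exact Or.inr (mem_of_mem_erase h'')
  refine ⟨F, hF, hvF, ?_⟩
  intro x
  constructor
  · intro hx
    rcases hFS x hx with h' | h'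
    · exact Or.inl h'
    · right
      refine ⟨h', ?_⟩
      obtain ⟨s, hs, hne, hadj⟩ := ft_nb hG hF hx
      rcases hFS s hs with h'' | h''
      · subst h''; exact hadj.symm
      · exact absurd hadj (h.2.1 x h' s h'')
  · rintro (h' | ⟨hxS, hvx⟩)
    · subst h'; exact hvF
    · by_contra hxF
      obtain ⟨s', hs', hne, hadj⟩ := hF.2 x hxF v hvF hvx.symm
      rcases hFS s' hs' with h'' | h''
      · exact hne h''
      · exact h.2.1 x hxS s' h'' hadj

/-- S2', first half -/
lemma cf_inter_one {S : Finset V} {y : V} (h : CF G m S y) {v : V} (hv : v ∉ S)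
    {l : V} (hl : l ∈ S) (hvl : ¬ G.Adj v l) {u s : V} (hu : u ∉ S) (huv : u ≠ v)
    (hs : s ∈ S) (hvs : G.Adj v s) (hus : G.Adj u s) :
    G.Adj u v ∨ ∃ s' ∈ S, s' ≠ s ∧ G.Adj v s' ∧ G.Adj u s' := by
  obtain ⟨F, hF, hvF, hFm⟩ := cf_fort hG hm h hv hl hvl
  have huF : u ∉ F := by
    rw [hFm]
    rintro (h' | h')
    · exact huv h'
    · exact hu h'.1
  obtain ⟨s', hs', hne, hadj⟩ := hF.2 u huF s ((hFm s).2 (Or.inr ⟨hs, hvs⟩)) hus
  rcases (hFm s').1 hs' with h' | h'
  · subst h'; exact Or.inl hadj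
  · exact Or.inr ⟨s', h'.1, hne, h'.2, hadj⟩

/-- S2', second half -/
lemma cf_inter_zero {S : Finset V} {y : V} (h : CF G m S y) {v : V} (hv : v ∉ S)
    {l : V} (hl : l ∈ S) (hvl : ¬ G.Adj v l) {u : V} (hu : u ∉ S) (huv : G.Adj u v) :
    ∃ s' ∈ S, G.Adj v s' ∧ G.Adj u s' := by
  obtain ⟨F, hF, hvF, hFm⟩ := cf_fort hG hm h hv hl hvl
  have huF : u ∉ F := by
    rw [hFm]
    rintro (h' | h')
    · exact huv.ne h'
    · exact hu h'.1
  obtain ⟨s', hs', hne, hadj⟩ := hF.2 u huF v hvF huv
  rcases (hFm s').1 hs' with h' | h'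
  · exact absurd h' hne
  · exact ⟨s', h'.1, h'.2, hadj⟩

/-- S3 -/
lemma cf_pair {S : Finset V} {y : V} (h : CF G m S y) (h2 : 2 ≤ m) {i j : V} (hi : i ∈ S)
    (hj : j ∈ S) (hij : i ≠ j) :
    ∃ e, e ∉ S ∧ ¬ G.Adj e y ∧ ∀ s ∈ S, G.Adj e s ↔ (s = i ∨ s = j) := by
  have hB := cf_bs hG h hi
  have hjW : j ∈ insert y (S.erase i) := mem_insert_of_mem (mem_erase.2 ⟨Ne.symm hij, hj⟩)
  obtain ⟨e, he⟩ := hG.star _ hB.1 hB.2.1 j hjW
  have heS : e ∉ S := fun h' => h.2.1 e h' j hj he.2.1
  have hey : ¬ G.Adj e y := by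
    intro h'
    have := he.2.2 y (mem_insert_self _ _) h'
    subst this
    exact h.notMem hj
  have h1 : ∀ s ∈ S, G.Adj e s → (s = i ∨ s = j) := by
    intro s hs hadj
    by_cases hsi : s = i
    · exact Or.inl hsi
    · exact Or.inr (he.2.2 s (mem_insert_of_mem (mem_erase.2 ⟨hsi, hs⟩)) hadj)
  refine ⟨e, heS, hey, ?_⟩
  intro s hs
  constructor
  · exact h1 s hs
  · rintro (h' | h')
    · subst h'
      obtain ⟨l', hl', hne, hadj⟩ := cf_two hG hm h h2 heS hj
      rcases h1 l' hl' hadj with h'' | h''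
      · exact h'' ▸ hadj
      · exact absurd h'' hne
    · subst h'; exact he.2.1

/-- K: the unique vertex nonadjacent to `W` minus a point -/
lemma bs_K {W : Finset V} (hW : Bs G m W) (h2 : 2 ≤ m) {w : V} (hw : w ∈ W) :
    ∃ r, G.Adj r w ∧ r ∉ W ∧ (∀ s ∈ W, s ≠ w → ¬ G.Adj r s) ∧
      ∀ r', (∀ s ∈ W, s ≠ w → r' ≠ s ∧ ¬ G.Adj r' s) → r' = r := by
  obtain ⟨r, hr⟩ := hG.star W hW.1 hW.2.1 w hw
  refine ⟨r, hr.2.1, hr.1, ?_, ?_⟩
  · intro s hs hne hadj
    exact hne (hr.2.2 s hs hadj)
  · intro r' hr'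
    -- w has a neighbour in W
    have hwn : ∃ s ∈ W, s ≠ w ∧ G.Adj w s := by
      by_contra hcon
      push Not at hcon
      have h1 : ∀ x ∈ W, x = w := by
        apply hW.1.2 (fun x => x = w) ⟨w, hw, rfl⟩
        intro a _ c hc hab hadj
        subst hab
        by_contra hne
        exact hcon c hc hne hadj
      have : W.card ≤ 1 := card_le_one.2 (fun a ha b hb => (h1 a ha).trans (h1 b hb).symm)
      rw [hW.2.2] at this
      omega
    have hrw : r' ≠ w := by
      intro h'; subst h'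
      obtain ⟨s, hs, hne, hadj⟩ := hwn
      exact (hr' s hs hne).2 hadj
    have hrW : r' ∉ W := fun h' => (hr' r' h' hrw).1 rfl
    obtain ⟨s, hs, hadj⟩ := nb_in hG hm hW hrW
    have hsw : s = w := by
      by_contra hne
      exact (hr' s hs hne).2 hadj
    subst hsw
    refine pv_unique hG hm hW ⟨hrW, hadj, ?_⟩ hr
    intro s' hs' hadj'
    by_contra hne
    exact (hr' s' hs' hne).2 hadj'

/-- S6 -/
lemma cf_w {S : Finset V} {y : V} (h : CF G m S y) (h3 : 3 ≤ m) {a : V} (ha : a ∈ S) :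
    ∃ w, w ∉ S ∧ ∀ s ∈ S, G.Adj w s ↔ s ≠ a := by
  have hc : 1 < S.card := by rw [h.1]; omega
  obtain ⟨b, hb, hba⟩ := exists_mem_ne hc a
  have hthird : ∀ j, ∃ k ∈ S, k ≠ b ∧ k ≠ j := by
    intro j
    have hc2 : 2 < S.card := by rw [h.1]; omega
    have : 0 < ((S.erase b).erase j).card := by
      have h1 : (S.erase b).card = S.card - 1 := card_erase_of_mem hb
      have h4 := pred_card_le_card_erase (s := S.erase b) (a := j)
      omega
    obtain ⟨k, hk⟩ := card_pos.1 this
    exact ⟨k, mem_of_mem_erase (mem_of_mem_erase hk),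
      (mem_erase.1 (mem_of_mem_erase hk)).1, (mem_erase.1 hk).1⟩
  -- choose the pair vertices
  have hch : ∀ j, ∃ e, j ∈ S → j ≠ b →
      (e ∉ S ∧ ¬ G.Adj e y ∧ ∀ s ∈ S, G.Adj e s ↔ (s = b ∨ s = j)) := by
    intro j
    by_cases hj : j ∈ S
    · by_cases hjb : j = b
      · exact ⟨j, fun _ h' => absurd hjb h'⟩
      · obtain ⟨e, he⟩ := cf_pair hG hm h (by omega) hb hj (Ne.symm hjb)
        exact ⟨e, fun _ _ => he⟩
    · exact ⟨j, fun h' => absurd h' hj⟩
  choose e he using hch
  have heS : ∀ j ∈ S, j ≠ b → e j ∉ S := fun j hj hjb => (he j hj hjb).1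
  have hey : ∀ j ∈ S, j ≠ b → ¬ G.Adj (e j) y := fun j hj hjb => (he j hj hjb).2.1
  have hes : ∀ j ∈ S, j ≠ b → ∀ s ∈ S, G.Adj (e j) s ↔ (s = b ∨ s = j) :=
    fun j hj hjb => (he j hj hjb).2.2
  have hinj : ∀ i ∈ S, i ≠ b → ∀ j ∈ S, j ≠ b → e i = e j → i = j := by
    intro i hi hib j hj hjb hij
    have h1 := (hes i hi hib i hi).2 (Or.inr rfl)
    rw [hij] at h1
    rcases (hes j hj hjb i hi).1 h1 with h' | h'
    · exact absurd h' hib
    · exact h'
  have hee : ∀ i ∈ S, i ≠ b → ∀ j ∈ S, j ≠ b → i ≠ j → G.Adj (e i) (e j) := by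
    intro i hi hib j hj hjb hij
    obtain ⟨k, hk, hkb, hkj⟩ := hthird j
    have hnk : ¬ G.Adj (e j) k := by
      intro h'
      rcases (hes j hj hjb k hk).1 h' with h'' | h''
      · exact hkb h''
      · exact hkj h''
    rcases cf_inter_one hG hm h (heS j hj hjb) hk hnk (heS i hi hib)
      (fun h' => hij (hinj i hi hib j hj hjb h')) hb
      ((hes j hj hjb b hb).2 (Or.inl rfl)) ((hes i hi hib b hb).2 (Or.inl rfl)) with h' | h'
    · exact h'
    · exfalso
      obtain ⟨s', hs', hne, h1, h2⟩ := h'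
      rcases (hes j hj hjb s' hs').1 h1 with h'' | h''
      · exact hne h''
      · rcases (hes i hi hib s' hs').1 h2 with h4 | h4
        · exact hne h4
        · exact hij (h4.symm.trans h'')
  -- the set W
  let T := (S.erase b).image e
  have hT : ∀ x, x ∈ T ↔ ∃ j ∈ S, j ≠ b ∧ e j = x := by
    intro x
    simp only [T, mem_image, mem_erase]
    constructor
    · rintro ⟨j, ⟨h1, h2⟩, h3⟩; exact ⟨j, h2, h1, h3⟩
    · rintro ⟨j, h2, h1, h3⟩; exact ⟨j, ⟨h1, h2⟩, h3⟩
  have hab : a ≠ b := Ne.symm hba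
  have haT : a ∉ T := by
    rw [hT]
    rintro ⟨j, hj, hjb, h'⟩
    exact heS j hj hjb (h' ▸ ha)
  have hcardT : T.card = m - 1 := by
    have : T.card = (S.erase b).card := by
      apply card_image_of_injOn
      intro i hi j hj hij
      simp only [coe_erase, Set.mem_sdiff, mem_coe, Set.mem_singleton_iff] at hi hj
      exact hinj i hi.1 hi.2 j hj.1 hj.2 hij
    rw [this, card_erase_of_mem hb, h.1]
  have hW : Bs G m (insert a T) := by
    refine ⟨?_, ?_, ?_⟩
    · have heaT : e a ∈ T := (hT _).2 ⟨a, ha, hab, rfl⟩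
      have hcnT : Cn G T := by
        rw [← insert_erase heaT]
        apply cn_star
        intro s hs
        obtain ⟨hs1, hs2⟩ := mem_erase.1 hs
        obtain ⟨j, hj, hjb, rfl⟩ := (hT s).1 hs2
        exact hee a ha hab j hj hjb (fun h' => hs1 (by rw [h']))
      exact cn_insert hcnT heaT ((hes a ha hab a ha).2 (Or.inr rfl)).symm
    · intro F hFs hF
      have haF : a ∉ F := by
        intro haF
        have hyF : y ∉ F := by
          intro hyF
          rcases mem_insert.1 (hFs hyF) with h' | h'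
          · subst h'; exact h.notMem ha
          · obtain ⟨j, hj, hjb, h''⟩ := (hT y).1 h'
            obtain ⟨k, hk, hkb, hkj⟩ := hthird j
            have := (hes j hj hjb k hk).1 (h'' ▸ h.2.2 k hk)
            tauto
        obtain ⟨s', hs', hne, hadj⟩ := hF.2 y hyF a haF (h.2.2 a ha)
        rcases mem_insert.1 (hFs hs') with h' | h'
        · exact hne h'
        · obtain ⟨j, hj, hjb, h''⟩ := (hT s').1 h'
          subst h''
          exact hey j hj hjb hadj.symm
      have hjF : ∀ j ∈ S, j ≠ b → j ≠ a → e j ∉ F := by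
        intro j hj hjb hja hejF
        have hjF : j ∉ F := by
          intro h'
          rcases mem_insert.1 (hFs h') with h'' | h''
          · exact hja h''
          · obtain ⟨i, hi, hib, h4⟩ := (hT j).1 h''
            exact heS i hi hib (h4 ▸ hj)
        obtain ⟨s', hs', hne, hadj⟩ := hF.2 j hjF (e j) hejF
          ((hes j hj hjb j hj).2 (Or.inr rfl)).symm
        rcases mem_insert.1 (hFs hs') with h' | h'
        · subst h'; exact h.2.1 j hj s' ha hadj
        · obtain ⟨i, hi, hib, h''⟩ := (hT s').1 h'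
          subst h''
          rcases (hes i hi hib j hj).1 hadj.symm with h4 | h4
          · exact hjb h4
          · subst h4; exact hne rfl
      have hall : ∀ x ∈ F, x = e a := by
        intro x hx
        rcases mem_insert.1 (hFs hx) with h' | h'
        · subst h'; exact absurd hx haF
        · obtain ⟨j, hj, hjb, h''⟩ := (hT x).1 h'
          by_cases hja : j = a
          · rw [← h'', hja]
          · subst h''; exact absurd hx (hjF j hj hjb hja)
      obtain ⟨b', hb'⟩ := hF.1.1
      obtain ⟨s, hs, hne, _⟩ := ft_nb hG hF hb'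
      exact hne ((hall s hs).trans (hall b' hb').symm)
    · rw [card_insert_of_notMem haT, hcardT]; omega
  have heaW : e a ∈ insert a T := mem_insert_of_mem ((hT _).2 ⟨a, ha, hab, rfl⟩)
  obtain ⟨w, hw⟩ := hG.star _ hW.1 hW.2.1 (e a) heaW
  obtain ⟨k, hk, hkb, hka⟩ := hthird a
  have hne1 : ∀ j ∈ S, j ≠ b → j ≠ a → ¬ G.Adj w (e j) := by
    intro j hj hjb hja h'
    have := hw.2.2 (e j) (mem_insert_of_mem ((hT _).2 ⟨j, hj, hjb, rfl⟩)) h'
    exact hja (hinj j hj hjb a ha hab this)
  have hwS : w ∉ S := by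
    intro hwS
    have hwa : w ≠ a := by
      intro h'; subst h'; exact hw.1 (mem_insert_self _ _)
    have hwb : w = b := by
      rcases (hes a ha hab w hwS).1 hw.2.1.symm with h' | h'
      · exact h'
      · exact absurd h' hwa
    subst hwb
    exact hne1 k hk hkb hka ((hes k hk hkb w hb).2 (Or.inl rfl)).symm
  have hwa : ¬ G.Adj w a := by
    intro h'
    have := hw.2.2 a (mem_insert_self _ _) h'
    exact heS a ha hab (this ▸ ha)
  have hnk : ¬ G.Adj (e a) k := by
    intro h'
    rcases (hes a ha hab k hk).1 h' with h'' | h''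
    · exact hkb h''
    · exact hka h''
  have hwb : G.Adj w b := by
    obtain ⟨s', hs', h1, h2⟩ := cf_inter_zero hG hm h (heS a ha hab) hk hnk hwS hw.2.1
    rcases (hes a ha hab s' hs').1 h1 with h' | h'
    · exact h' ▸ h2
    · subst h'; exact absurd h2 hwa
  refine ⟨w, hwS, ?_⟩
  intro s hs
  constructor
  · intro h' h''
    subst h''; exact hwa h'
  · intro hsa
    by_cases hsb : s = b
    · subst hsb; exact hwb
    · obtain ⟨k', hk', hkb', hks'⟩ := hthird s
      have hnk' : ¬ G.Adj (e s) k' := by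
        intro h'
        rcases (hes s hs hsb k' hk').1 h' with h'' | h''
        · exact hkb' h''
        · exact hks' h''
      have hwes : w ≠ e s := by
        intro h'
        exact hw.1 (h' ▸ mem_insert_of_mem ((hT _).2 ⟨s, hs, hsb, rfl⟩))
      rcases cf_inter_one hG hm h (heS s hs hsb) hk' hnk' hwS hwes hb
        ((hes s hs hsb b hb).2 (Or.inl rfl)) hwb with h' | h'
      · exact absurd h' (hne1 s hs hsb hsa)
      · obtain ⟨s', hs', hne, h1, h2⟩ := h'
        rcases (hes s hs hsb s' hs').1 h1 with h'' | h''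
        · exact absurd h'' hne
        · exact h'' ▸ h2

end good

end Pool.Agent.Q185.PSD
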