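import Pool.Agent.Q185.PSD.Frame
import Pool.Agent.Q185.PSD.Friend

/-!
The maximum size of a connected set without forts is two.
-/

set_option linter.unusedSectionVars false

namespace Pool.Agent.Q185.PSD

open Finset

variable {V : Type*} [Fintype V] [DecidableEq V]
variable {G : SimpleGraph V}

/-- a frame through the base set `K` -/
def Tr (G : SimpleGraph V) (m : ℕ) (K : Finset V) (c a b y : V) : Prop :=
  CF G m (insert c (insert a (insert b K))) y

/-- vertices outside `K` and not adjacent to it -/
def InU (G : SimpleGraph V) (K : Finset V) (u : V) : Prop := u ∉ K ∧ ∀ s ∈ K, ¬ G.Adj u s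

lemma Tr.perm1 {m : ℕ} {K : Finset V} {c a b y : V} (h : Tr G m K c a b y) : Tr G m K a c b y := by
  unfold Tr at *
  rwa [Finset.insert_comm]

lemma Tr.perm2 {m : ℕ} {K : Finset V} {c a b y : V} (h : Tr G m K c a b y) : Tr G m K c b a y := by
  unfold Tr at *
  rwa [Finset.insert_comm b a]

lemma card3 {K : Finset V} {c a b : V} (h : (insert c (insert a (insert b K))).card = K.card + 3) :
    c ≠ a ∧ c ≠ b ∧ a ≠ b ∧ c ∉ K ∧ a ∉ K ∧ b ∉ K := by
  have h1 := card_insert_le b K
  have h2 := card_insert_le a (insert b K)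
  have h3 := card_insert_le c (insert a (insert b K))
  have hb : b ∉ K := by
    intro hb
    rw [insert_eq_of_mem hb] at h1 h2 h3 h
    omega
  have ha : a ∉ insert b K := by
    intro ha
    rw [insert_eq_of_mem ha] at h2 h3 h
    omega
  have hc : c ∉ insert a (insert b K) := by
    intro hc
    rw [insert_eq_of_mem hc] at h3 h
    omega
  simp only [mem_insert, not_or] at ha hc
  exact ⟨hc.1, hc.2.1, ha.1, hc.2.2, ha.2, hb⟩

section good

variable (hG : Good G) {m : ℕ} (hm : Mx G m) {K : Finset V} (hK : K.card + 3 = m)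
include hG hm hK

omit hG hm in
lemma Tr.inU {c a b y : V} (h : Tr G m K c a b y) : InU G K c := by
  have hc := card3 (h.1.trans hK.symm)
  refine ⟨hc.2.2.2.1, ?_⟩
  intro s hs
  exact h.2.1 c (mem_insert_self _ _) s
    (mem_insert_of_mem (mem_insert_of_mem (mem_insert_of_mem hs)))

/-- the two main cases of the exchange -/
lemma pf_core {c a b y : V} (h : Tr G m K c a b y) {p : V} (hp : InU G K p)
    (hpc : p ≠ c) (hpa' : p ≠ a) (hpb' : p ≠ b) (hpa : G.Adj p a) :
    ∃ w, w ∉ insert c (insert p K) ∧ Bs G m (insert w (insert c (insert p K))) ∧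
      G.Adj w c ∧ (∀ s ∈ K, G.Adj w s) ∧ (¬ G.Adj p c → G.Adj w p) := by
  obtain ⟨hca, hcb, hab, hcK, haK, hbK⟩ := card3 (h.1.trans hK.symm)
  have h' : CF G m (insert c (insert a (insert b K))) y := h
  have hcS : c ∈ insert c (insert a (insert b K)) := by simp
  have haS : a ∈ insert c (insert a (insert b K)) := by simp
  have hbS : b ∈ insert c (insert a (insert b K)) := by simp
  have hKS : ∀ s ∈ K, s ∈ insert c (insert a (insert b K)) := by
    intro s hs; simp [hs]
  have hpS : p ∉ insert c (insert a (insert b K)) := by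
    simp only [mem_insert, not_or]
    exact ⟨hpc, hpa', hpb', hp.1⟩
  obtain ⟨w, hwS, hw⟩ := cf_w hG hm h' (by omega) haS
  have hwc : G.Adj w c := (hw c hcS).2 hca
  have hwb : G.Adj w b := (hw b hbS).2 (Ne.symm hab)
  have hwa : ¬ G.Adj w a := fun h'' => (hw a haS).1 h'' rfl
  have hwK : ∀ s ∈ K, G.Adj w s := by
    intro s hs
    refine (hw s (hKS s hs)).2 ?_
    intro h''; subst h''; exact haK hs
  have hwp : w ≠ p := by
    intro h''; subst h''; exact hwa hpa
  have hwp' : ¬ G.Adj p c → G.Adj w p := by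
    intro hnc
    -- common neighbours of p and w in the frame: only b
    have hpb : G.Adj p b := by
      obtain ⟨l', hl', hne, hadj⟩ := cf_two hG hm h' (by omega) hpS haS
      simp only [mem_insert] at hl'
      rcases hl' with h1 | h1 | h1 | h1
      · subst h1; exact absurd hadj hnc
      · exact absurd h1 hne
      · exact h1 ▸ hadj
      · exact absurd hadj (hp.2 l' h1)
    rcases cf_inter_one hG hm h' hpS hcS hnc hwS hwp hbS hpb hwb with h1 | h1
    · exact h1
    · exfalso
      obtain ⟨s', hs', hne, h2, h3⟩ := h1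
      simp only [mem_insert] at hs'
      rcases hs' with h1 | h1 | h1 | h1
      · subst h1; exact hnc h2
      · subst h1; exact hwa h3
      · exact hne h1
      · exact hp.2 s' h1 h2
  have hwN : w ∉ insert c (insert p K) := by
    simp only [mem_insert, not_or]
    exact ⟨fun h1 => hwS (h1 ▸ hcS), hwp, fun h1 => hwS (hKS w h1)⟩
  have hind : ∀ a' ∈ K, ∀ b' ∈ K, ¬ G.Adj a' b' :=
    fun a' ha' b' hb' => h'.2.1 a' (hKS a' ha') b' (hKS b' hb')
  refine ⟨w, hwN, ⟨?_, ?_, ?_⟩, hwc, hwK, hwp'⟩
  · have e1 : insert w (insert c (insert p K)) = insert p (insert w (insert c K)) := by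
      ext x; simp only [mem_insert]; tauto
    rw [e1]
    have hcn : Cn G (insert w (insert c K)) := by
      apply cn_star
      intro s hs
      rcases mem_insert.1 hs with h1 | h1
      · exact h1 ▸ hwc
      · exact hwK s h1
    by_cases hpc' : G.Adj p c
    · exact cn_insert hcn (by simp) hpc'
    · exact cn_insert hcn (s := w) (by simp) (hwp' hpc').symm
  · intro F hFs hF
    have haF : a ∉ F := by
      intro h1
      have := hFs h1
      simp only [mem_insert] at this
      rcases this with h2 | h2 | h2 | h2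
      · subst h2; exact hwS haS
      · exact hca h2.symm
      · exact hpa' h2.symm
      · exact haK h2
    have hbF : b ∉ F := by
      intro h1
      have := hFs h1
      simp only [mem_insert] at this
      rcases this with h2 | h2 | h2 | h2
      · subst h2; exact hwS hbS
      · exact hcb h2.symm
      · exact hpb' h2.symm
      · exact hbK h2
    by_cases hwF : w ∈ F
    · by_cases hpF : p ∈ F
      · obtain ⟨s', hs', hne, hadj⟩ := hF.2 a haF p hpF hpa.symm
        have := hFs hs'
        simp only [mem_insert] at this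
        rcases this with h2 | h2 | h2 | h2
        · subst h2; exact hwa hadj.symm
        · subst h2; exact h'.2.1 a haS s' hcS hadj
        · exact hne h2
        · exact h'.2.1 a haS s' (hKS s' h2) hadj
      · obtain ⟨s', hs', hne, hadj⟩ := hF.2 b hbF w hwF hwb.symm
        have := hFs hs'
        simp only [mem_insert] at this
        rcases this with h2 | h2 | h2 | h2
        · exact hne h2
        · subst h2; exact h'.2.1 b hbS s' hcS hadj
        · subst h2; exact hpF hs'
        · exact h'.2.1 b hbS s' (hKS s' h2) hadj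
    · -- F inside c, p, K
      have hFm : ∀ x ∈ F, x = c ∨ x = p ∨ x ∈ K := by
        intro x hx
        have := hFs hx
        simp only [mem_insert] at this
        rcases this with h2 | h2
        · subst h2; exact absurd hx hwF
        · exact h2
      have hKF : ∀ x ∈ F, x = c ∨ x = p := by
        intro x hx
        rcases hFm x hx with h1 | h1 | h1
        · exact Or.inl h1
        · exact Or.inr h1
        · exfalso
          obtain ⟨s, hs, _, hadj⟩ := ft_nb hG hF hx
          rcases hFm s hs with h2 | h2 | h2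
          · subst h2; exact h'.2.1 x (hKS x h1) s hcS hadj
          · subst h2; exact hp.2 x h1 hadj.symm
          · exact hind x h1 s h2 hadj
      obtain ⟨x, hx⟩ := hF.1.1
      obtain ⟨s, hs, hne, hadj⟩ := ft_nb hG hF hx
      have hcp : G.Adj c p := by
        rcases hKF x hx with h1 | h1
        · rcases hKF s hs with h2 | h2
          · exact absurd (h2.trans h1.symm) hne
          · rw [← h1, ← h2]; exact hadj
        · rcases hKF s hs with h2 | h2
          · rw [← h1, ← h2]; exact hadj.symm
          · exact absurd (h2.trans h1.symm) hne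
      apply ff_pair hG hcp F _ hF
      intro z hz
      simpa using hKF z hz
  · rw [card_insert_of_notMem hwN, card_insert_of_notMem, card_insert_of_notMem hp.1]
    · omega
    · simp only [mem_insert, not_or]
      exact ⟨Ne.symm hpc, hcK⟩

/-- a vertex `p` of `U` and a vertex `c` of a frame extend to a maximum set -/
lemma pf_set {c a b y : V} (h : Tr G m K c a b y) {p : V} (hp : InU G K p) (hpc : p ≠ c) :
    ∃ w, w ∉ insert c (insert p K) ∧ Bs G m (insert w (insert c (insert p K))) := by
  obtain ⟨hca, hcb, hab, hcK, haK, hbK⟩ := card3 (h.1.trans hK.symm)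
  have h' : CF G m (insert c (insert a (insert b K))) y := h
  by_cases hpa : p = a
  · subst hpa
    refine ⟨y, ?_, ?_⟩
    · intro h1
      apply h'.notMem
      simp only [mem_insert] at h1 ⊢
      tauto
    · have hbS : b ∈ insert c (insert p (insert b K)) := by simp
      have := cf_bs hG h' hbS
      have e1 : (insert c (insert p (insert b K))).erase b = insert c (insert p K) := by
        ext x
        simp only [mem_erase, mem_insert]
        constructor
        · tauto
        · rintro (h1 | h1 | h1)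
          · exact ⟨h1 ▸ hcb, by tauto⟩
          · exact ⟨h1 ▸ hab, by tauto⟩
          · exact ⟨fun h2 => hbK (h2 ▸ h1), by tauto⟩
      rwa [e1] at this
  by_cases hpb : p = b
  · subst hpb
    refine ⟨y, ?_, ?_⟩
    · intro h1
      apply h'.notMem
      simp only [mem_insert] at h1 ⊢
      tauto
    · have hbS : a ∈ insert c (insert a (insert p K)) := by simp
      have := cf_bs hG h' hbS
      have e1 : (insert c (insert a (insert p K))).erase a = insert c (insert p K) := by
        ext x
        simp only [mem_erase, mem_insert]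
        constructor
        · tauto
        · rintro (h1 | h1 | h1)
          · exact ⟨h1 ▸ hca, by tauto⟩
          · exact ⟨h1 ▸ Ne.symm hab, by tauto⟩
          · exact ⟨fun h2 => haK (h2 ▸ h1), by tauto⟩
      rwa [e1] at this
  have hcS : c ∈ insert c (insert a (insert b K)) := by simp
  have hpS : p ∉ insert c (insert a (insert b K)) := by
    simp only [mem_insert, not_or]
    exact ⟨hpc, hpa, hpb, hp.1⟩
  obtain ⟨l', hl', hne, hadj⟩ := cf_two hG hm h' (by omega) hpS hcS
  simp only [mem_insert] at hl'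
  rcases hl' with h1 | h1 | h1 | h1
  · exact absurd h1 hne
  · subst h1
    obtain ⟨w, hw1, hw2, _⟩ := pf_core hG hm hK h hp hpc hpa hpb hadj
    exact ⟨w, hw1, hw2⟩
  · subst h1
    obtain ⟨w, hw1, hw2, _⟩ := pf_core hG hm hK h.perm2 hp hpc hpb hpa hadj
    exact ⟨w, hw1, hw2⟩
  · exact absurd hadj (hp.2 l' h1)

/-- PF -/
lemma pf_unique {c a b y : V} (h : Tr G m K c a b y) {p : V} (hp : InU G K p) (hpc : p ≠ c) :
    ∃ r, (InU G K r ∧ r ≠ p ∧ r ≠ c ∧ ¬ G.Adj r p ∧ ¬ G.Adj r c) ∧
      ∀ r', (InU G K r' ∧ r' ≠ p ∧ r' ≠ c ∧ ¬ G.Adj r' p ∧ ¬ G.Adj r' c) → r' = r := by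
  obtain ⟨w, hwN, hW⟩ := pf_set hG hm hK h hp hpc
  obtain ⟨r, hrw, hrW, hr, hu⟩ := bs_K hG hm hW (by omega) (w := w) (mem_insert_self _ _)
  have hne : ∀ s ∈ insert c (insert p K), s ≠ w := by
    intro s hs h1; subst h1; exact hwN hs
  have hr' : ∀ s ∈ insert c (insert p K), ¬ G.Adj r s := fun s hs =>
    hr s (mem_insert_of_mem hs) (hne s hs)
  have hrN : r ∉ insert c (insert p K) := fun h1 => hrW (mem_insert_of_mem h1)
  refine ⟨r, ⟨⟨?_, ?_⟩, ?_, ?_, ?_, ?_⟩, ?_⟩
  · intro h1; exact hrN (by simp [h1])
  · intro s hs; exact hr' s (by simp [hs])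
  · intro h1; exact hrN (by simp [h1])
  · intro h1; exact hrN (by simp [h1])
  · exact hr' p (by simp)
  · exact hr' c (by simp)
  · rintro r' ⟨⟨h1, h2⟩, h3, h4, h5, h6⟩
    apply hu
    intro s hs hsw
    rcases mem_insert.1 hs with h7 | h7
    · exact absurd h7 hsw
    · simp only [mem_insert] at h7
      rcases h7 with h8 | h8 | h8
      · subst h8; exact ⟨h4, h6⟩
      · subst h8; exact ⟨h3, h5⟩
      · exact ⟨fun h9 => h1 (h9 ▸ h8), h2 s h8⟩

/-- a vertex of `U` not adjacent to `c` lies in a frame with `c` -/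
lemma tr_new {c a b y : V} (h : Tr G m K c a b y) {p : V} (hp : InU G K p)
    (hpc : p ≠ c) (hpa : p ≠ a) (hpb : p ≠ b) (hn : ¬ G.Adj p c) :
    ∃ q w, Tr G m K p c q w := by
  obtain ⟨hca, hcb, hab, hcK, haK, hbK⟩ := card3 (h.1.trans hK.symm)
  have h' : CF G m (insert c (insert a (insert b K))) y := h
  have hbS : b ∈ insert c (insert a (insert b K)) := by simp
  have hpS : p ∉ insert c (insert a (insert b K)) := by
    simp only [mem_insert, not_or]
    exact ⟨hpc, hpa, hpb, hp.1⟩
  obtain ⟨l', hl', hne, hadj⟩ := cf_two hG hm h' (by omega) hpS hbS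
  have hpa2 : G.Adj p a := by
    simp only [mem_insert] at hl'
    rcases hl' with h1 | h1 | h1 | h1
    · subst h1; exact absurd hadj hn
    · exact h1 ▸ hadj
    · exact absurd h1 hne
    · exact absurd hadj (hp.2 l' h1)
  obtain ⟨w, hwN, hW, hwc, hwK, hwp⟩ := pf_core hG hm hK h hp hpc hpa hpb hpa2
  obtain ⟨r, hrw, hrW, hr, hu⟩ := bs_K hG hm hW (by omega) (w := w) (mem_insert_self _ _)
  have hne' : ∀ s ∈ insert c (insert p K), s ≠ w := by
    intro s hs h1; subst h1; exact hwN hs
  have hr' : ∀ s ∈ insert c (insert p K), ¬ G.Adj r s := fun s hs =>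
    hr s (mem_insert_of_mem hs) (hne' s hs)
  have hrN : r ∉ insert c (insert p K) := fun h1 => hrW (mem_insert_of_mem h1)
  have e1 : insert p (insert c (insert r K)) = insert r (insert c (insert p K)) := by
    ext x; simp only [mem_insert]; tauto
  refine ⟨r, w, ?_⟩
  unfold Tr
  rw [e1]
  have hcK' : InU G K c := h.inU hK
  have hindN : ∀ x ∈ insert c (insert p K), ∀ z ∈ insert c (insert p K), ¬ G.Adj x z := by
    intro x hx z hz
    simp only [mem_insert] at hx hz
    rcases hx with h1 | h1 | h1
    · rw [h1]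
      rcases hz with h2 | h2 | h2
      · rw [h2]; exact G.loopless.irrefl _
      · rw [h2]; exact fun h3 => hn h3.symm
      · exact hcK'.2 z h2
    · rw [h1]
      rcases hz with h2 | h2 | h2
      · rw [h2]; exact hn
      · rw [h2]; exact G.loopless.irrefl _
      · exact hp.2 z h2
    · rcases hz with h2 | h2 | h2
      · rw [h2]; exact fun h3 => hcK'.2 x h1 h3.symm
      · rw [h2]; exact fun h3 => hp.2 x h1 h3.symm
      · exact h'.2.1 x (by simp [h1]) z (by simp [h2])
  refine ⟨?_, ?_, ?_⟩
  · have := hW.2.2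
    rw [card_insert_of_notMem hwN] at this
    rw [card_insert_of_notMem hrN]
    exact this
  · intro x hx z hz
    rcases mem_insert.1 hx with h1 | h1
    · rw [h1]
      rcases mem_insert.1 hz with h2 | h2
      · rw [h2]; exact G.loopless.irrefl _
      · exact hr' z h2
    · rcases mem_insert.1 hz with h2 | h2
      · rw [h2]; exact fun h3 => hr' x h1 h3.symm
      · exact hindN x h1 z h2
  · intro x hx
    simp only [mem_insert] at hx
    rcases hx with h1 | h1 | h1 | h1
    · rw [h1]; exact hrw.symm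
    · rw [h1]; exact hwc
    · rw [h1]; exact hwp hn
    · exact hwK x h1

/-- a vertex of `U` nonadjacent to some vertex of a frame lies in a frame -/
lemma tr_of_non {c a b y : V} (h : Tr G m K c a b y) {p : V} (hp : InU G K p)
    (hn : ¬ G.Adj p c ∨ ¬ G.Adj p a ∨ ¬ G.Adj p b) :
    ∃ a' b' y', Tr G m K p a' b' y' := by
  by_cases h1 : p = c
  · subst h1; exact ⟨a, b, y, h⟩
  by_cases h2 : p = a
  · subst h2; exact ⟨c, b, y, h.perm1⟩
  by_cases h3 : p = b
  · subst h3; exact ⟨c, a, y, h.perm2.perm1⟩
  rcases hn with h4 | h4 | h4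
  · obtain ⟨q, w, hq⟩ := tr_new hG hm hK h hp h1 h2 h3 h4
    exact ⟨c, q, w, hq⟩
  · obtain ⟨q, w, hq⟩ := tr_new hG hm hK h.perm1 hp h2 h1 h3 h4
    exact ⟨a, q, w, hq⟩
  · obtain ⟨q, w, hq⟩ := tr_new hG hm hK h.perm2.perm1 hp h3 h1 h2 h4
    exact ⟨b, q, w, hq⟩

/-- every vertex of `U` lies in a frame -/
lemma tr_all {c a b y : V} (h : Tr G m K c a b y) {p : V} (hp : InU G K p) :
    ∃ a' b' y', Tr G m K p a' b' y' := by
  by_cases hn : ¬ G.Adj p c ∨ ¬ G.Adj p a ∨ ¬ G.Adj p b
  · exact tr_of_non hG hm hK h hp hn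
  · push Not at hn
    obtain ⟨r, ⟨hr, hrp, hrc, hnp, hnc⟩, _⟩ := pf_unique hG hm hK h hp hn.1.ne
    have h1 : r ≠ a := by
      intro h1; subst h1; exact hnp hn.2.1.symm
    have h2 : r ≠ b := by
      intro h1; subst h1; exact hnp hn.2.2.symm
    obtain ⟨q, w, hq⟩ := tr_new hG hm hK h hr hrc h1 h2 hnc
    exact tr_of_non hG hm hK hq hp (Or.inl (fun h3 => hnp h3.symm))

/-- no frame exists when the maximum is at least three -/
lemma tr_false {c a b y : V} (h : Tr G m K c a b y) : False := by
  classical
  let U := {u : V // InU G K u}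
  let H : SimpleGraph U :=
    { Adj := fun u v => u ≠ v ∧ ¬ G.Adj u.1 v.1
      symm := ⟨fun u v h => ⟨h.1.symm, fun h' => h.2 h'.symm⟩⟩
      loopless := ⟨fun u h => h.1 rfl⟩ }
  have : Nonempty U := ⟨⟨c, h.inU hK⟩⟩
  have hfr : ∀ v w : U, v ≠ w → ∃! x, H.Adj v x ∧ H.Adj w x := by
    intro v w hvw
    obtain ⟨a', b', y', hv⟩ := tr_all hG hm hK h v.2
    have hwv : w.1 ≠ v.1 := fun h' => hvw (Subtype.ext h'.symm)
    obtain ⟨r, ⟨hr, hrw, hrv, hnw, hnv⟩, hu⟩ := pf_unique hG hm hK hv w.2 hwv
    refine ⟨⟨r, hr⟩, ⟨⟨?_, ?_⟩, ⟨?_, ?_⟩⟩, ?_⟩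
    · intro h'; exact hrv (by rw [h'])
    · exact fun h' => hnv h'.symm
    · intro h'; exact hrw (by rw [h'])
    · exact fun h' => hnw h'.symm
    · rintro x ⟨⟨h1, h2⟩, h3, h4⟩
      apply Subtype.ext
      exact hu x.1 ⟨x.2, fun h' => h3 (Subtype.ext h'.symm), fun h' => h1 (Subtype.ext h'.symm),
        fun h' => h4 h'.symm, fun h' => h2 h'.symm⟩
  obtain ⟨v, hv⟩ := Fr.politician_of_unique (G := H) hfr
  obtain ⟨a', b', y', ht⟩ := tr_all hG hm hK h v.2
  have hc3 := card3 (ht.1.trans hK.symm)
  obtain ⟨e, heS, _, he⟩ := cf_pair hG hm ht (by omega) (i := v.1) (j := a')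
    (by simp) (by simp) hc3.1
  have heU : InU G K e := by
    refine ⟨?_, ?_⟩
    · intro h1; exact heS (by simp [h1])
    · intro s hs hadj
      rcases (he s (by simp [hs])).1 hadj with h1 | h1
      · subst h1; exact hc3.2.2.2.1 hs
      · subst h1; exact hc3.2.2.2.2.1 hs
  have hev : G.Adj e v.1 := (he v.1 (by simp)).2 (Or.inl rfl)
  have := (hv ⟨e, heU⟩ (by intro h'; exact hev.ne (by rw [h']))).2
  exact this hev.symm

end good

section final

variable (hG : Good G)
include hG

lemma two_of_frame {m : ℕ} (hm : Mx G m) (h2 : 2 ≤ m) {S : Finset V} {y : V} (h : CF G m S y) :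
    m = 2 := by
  by_contra hne
  have h3 : 3 ≤ m := by omega
  have hc : S.card = m := h.1
  -- choose three elements
  obtain ⟨T, hTS, hT⟩ := exists_subset_card_eq (s := S) (n := 3) (by omega)
  obtain ⟨c, a, b, hca, hcb, hab, rfl⟩ := card_eq_three.1 hT
  have e1 : insert c (insert a (insert b (S \ {c, a, b}))) = S := by
    ext x
    simp only [mem_insert, mem_sdiff, mem_singleton, not_or]
    constructor
    · rintro (h1 | h1 | h1 | h1)
      · exact hTS (by simp [h1])
      · exact hTS (by simp [h1])
      · exact hTS (by simp [h1])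
      · exact h1.1
    · intro hx
      by_cases h1 : x = c
      · exact Or.inl h1
      · by_cases h4 : x = a
        · exact Or.inr (Or.inl h4)
        · by_cases h5 : x = b
          · exact Or.inr (Or.inr (Or.inl h5))
          · exact Or.inr (Or.inr (Or.inr ⟨hx, h1, h4, h5⟩))
  have hK : (S \ {c, a, b}).card + 3 = m := by
    rw [card_sdiff_of_subset hTS, hT]; omega
  have ht : Tr G m (S \ {c, a, b}) c a b y := by
    unfold Tr; rw [e1]; exact h
  exact tr_false hG hm hK ht

/-- In the reduced graph every vertex has exactly one non-neighbour. -/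
theorem one_nonneighbour (u : V) : ∃! v, v ≠ u ∧ ¬ G.Adj u v := by
  obtain ⟨m, h2, hm, hex⟩ := exists_max hG
  obtain ⟨S, y, h⟩ := exists_cf hG hm hex
  have hm2 : m = 2 := two_of_frame hG hm h2 h
  subst hm2
  -- an independent pair with a common neighbour
  have key : ∀ p q z : V, p ≠ q → ¬ G.Adj p q → G.Adj z p → G.Adj z q →
      ∃! v, v ≠ p ∧ ¬ G.Adj p v := by
    intro p q z hpq hnadj hzp hzq
    have hcf : CF G 2 {p, q} z := by
      refine ⟨card_pair hpq, ?_, ?_⟩
      · intro a ha b hb
        simp only [mem_insert, mem_singleton] at ha hb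
        rcases ha with rfl | rfl
        · rcases hb with rfl | rfl
          · exact G.loopless.irrefl _
          · exact hnadj
        · rcases hb with rfl | rfl
          · exact fun h' => hnadj h'.symm
          · exact G.loopless.irrefl _
      · intro a ha
        simp only [mem_insert, mem_singleton] at ha
        rcases ha with rfl | rfl
        · exact hzp
        · exact hzq
    refine ⟨q, ⟨Ne.symm hpq, hnadj⟩, ?_⟩
    rintro v ⟨hvp, hnv⟩
    by_contra hvq
    have hvS : v ∉ ({p, q} : Finset V) := by simp [hvp, hvq]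
    obtain ⟨l, hl, hne, hadj⟩ := cf_two hG hm hcf le_rfl hvS (l := q) (by simp)
    simp only [mem_insert, mem_singleton] at hl
    rcases hl with rfl | rfl
    · exact hnv hadj.symm
    · exact hne rfl
  obtain ⟨l0, l1, hl01, rfl⟩ := card_eq_two.1 h.1
  by_cases hu0 : u = l0
  · subst hu0
    exact key u l1 y hl01 (h.2.1 u (by simp) l1 (by simp)) (h.2.2 u (by simp))
      (h.2.2 l1 (by simp))
  by_cases hu1 : u = l1
  · subst hu1
    exact key u l0 y (Ne.symm hl01) (h.2.1 u (by simp) l0 (by simp)) (h.2.2 u (by simp))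
      (h.2.2 l0 (by simp))
  have huS : u ∉ ({l0, l1} : Finset V) := by simp [hu0, hu1]
  obtain ⟨l, hl, hne, hadj⟩ := cf_two hG hm h le_rfl huS (l := l0) (by simp)
  have hul1 : G.Adj u l1 := by
    simp only [mem_insert, mem_singleton] at hl
    rcases hl with rfl | rfl
    · exact absurd rfl hne
    · exact hadj
  have hB : Bs G 2 {u, l1} := ⟨cn_pair hG hul1, ff_pair hG hul1, card_pair hu1⟩
  obtain ⟨v, hv⟩ := hG.star _ hB.1 hB.2.1 l1 (by simp)
  have hnvu : ¬ G.Adj v u := by
    intro h'
    exact hu1 (hv.2.2 u (by simp) h')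
  have hvu : u ≠ v := by
    intro h'; subst h'; exact hv.1 (by simp)
  exact key u v l1 hvu (fun h' => hnvu h'.symm) hul1.symm hv.2.1.symm

end final

end Pool.Agent.Q185.PSD
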