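import Pool.Agent.Q185.PSD.Main

/-!
Identification of closed twins, and the resulting structure.
-/

set_option linter.unusedSectionVars false

namespace Pool.Agent.Q185.PSD

open Finset

/-- closed neighbourhood -/
def cl {V : Type*} (G : SimpleGraph V) (u : V) : Set V := {x | x = u ∨ G.Adj x u}

lemma bool_third : ∀ a b c : Bool, a ≠ b → ¬ b = c → a = c := by decide

section red

variable {V Q : Type*} [Fintype V] [DecidableEq V] [Fintype Q] [DecidableEq Q]
variable {G : SimpleGraph V} {f : V → Q} {o : Q → V}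
variable (hfo : ∀ q, f (o q) = q) (hcl : ∀ u v, f u = f v ↔ cl G u = cl G v)

include hcl in
lemma adj_move {u u' v v' : V} (hu : f u = f u') (hv : f v = f v') (hne : f u ≠ f v)
    (h : G.Adj u v) : G.Adj u' v' := by
  have h1 : u ∈ cl G v := Or.inr h
  rw [(hcl v v').1 hv] at h1
  rcases h1 with h1 | h1
  · subst h1; exact absurd hv.symm hne
  · have h2 : v' ∈ cl G u := Or.inr h1.symm
    rw [(hcl u u').1 hu] at h2
    rcases h2 with h2 | h2
    · subst h2; exact absurd (hu.trans hv.symm) hne
    · exact h2.symm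

include hfo hcl in
lemma adj_iff (u v : V) :
    G.Adj u v ↔ u ≠ v ∧ (f u = f v ∨ (G.comap o).Adj (f u) (f v)) := by
  constructor
  · intro h
    refine ⟨h.ne, ?_⟩
    by_cases hf : f u = f v
    · exact Or.inl hf
    · right
      exact adj_move hcl (hfo _).symm (hfo _).symm hf h
  · rintro ⟨hne, h | h⟩
    · have : u ∈ cl G u := Or.inl rfl
      rw [(hcl u v).1 h] at this
      rcases this with h' | h'
      · exact absurd h' hne
      · exact h'
    · have hf : f u ≠ f v := fun h' => h.ne h'
      exact adj_move hcl (hfo _) (hfo _) (by rw [hfo, hfo]; exact hf) h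

include hfo hcl in
lemma good_red (hconn : Cn G univ)
    (hstar : ∀ W, Cn G W → Ff G W → ∀ s ∈ W, ∃ u, Pv G W s u)
    (htwo : ∃ a b : Q, a ≠ b) : Good (G.comap o) := by
  have hoi : Function.Injective o := Function.LeftInverse.injective (g := f) hfo
  have hconn' : Cn (G.comap o) univ := by
    obtain ⟨q, _, _⟩ := htwo
    refine ⟨⟨q, mem_univ _⟩, ?_⟩
    intro P hP hPcl
    obtain ⟨q0, _, hq0⟩ := hP
    have := hconn.2 (fun v => P (f v)) ⟨o q0, mem_univ _, by rw [hfo]; exact hq0⟩ (by
      intro a _ b _ ha hab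
      rcases ((adj_iff hfo hcl a b).1 hab).2 with h | h
      · rwa [← h]
      · exact hPcl (f a) (mem_univ _) (f b) (mem_univ _) ha h)
    intro x _
    have h := this (o x) (mem_univ _)
    rwa [hfo] at h
  -- every vertex has a neighbour
  have hnb : ∀ q : Q, ∃ r, (G.comap o).Adj r q := by
    intro q
    by_contra hcon
    push Not at hcon
    obtain ⟨a, b, hab⟩ := htwo
    have := hconn'.2 (fun x => x = q) ⟨q, by simp, rfl⟩ (by
      intro a _ b _ ha hab
      subst ha
      exact absurd hab.symm (hcon b))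
    exact hab ((this a (by simp)).trans (this b (by simp)).symm)
  refine ⟨hconn', htwo, ?_, ?_⟩
  · intro q r hqr
    have hne : cl G (o q) ≠ cl G (o r) := by
      intro h
      have := (hcl (o q) (o r)).2 h
      rw [hfo, hfo] at this
      exact hqr.ne this
    have hqr' : G.Adj (o q) (o r) := hqr
    -- a general step
    have gen : ∀ q r : Q, G.Adj (o q) (o r) → ∀ z, z ∈ cl G (o q) → z ∉ cl G (o r) →
        ∃ x, x ≠ q ∧ x ≠ r ∧ (G.comap o).Adj x q ∧ ¬ (G.comap o).Adj x r := by
      intro q r hadj z hz1 hz2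
      have hzq : z ≠ o q := by
        intro h; subst h; exact hz2 (Or.inr hadj)
      have hzr : z ≠ o r := by
        intro h; subst h; exact hz2 (Or.inl rfl)
      have hzq' : G.Adj z (o q) := by
        rcases hz1 with h | h
        · exact absurd h hzq
        · exact h
      have hzr' : ¬ G.Adj z (o r) := fun h => hz2 (Or.inr h)
      have h1 : f z ≠ q := by
        intro h
        have h2 : f z = f (o q) := by rw [hfo]; exact h
        have h3 : o r ∈ cl G (o q) := Or.inr hadj.symm
        rw [← (hcl _ _).1 h2] at h3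
        rcases h3 with h4 | h4
        · exact hzr h4.symm
        · exact hzr' h4.symm
      have h2 : f z ≠ r := by
        intro h
        have h2 : f z = f (o r) := by rw [hfo]; exact h
        have h3 : z ∈ cl G z := Or.inl rfl
        rw [(hcl _ _).1 h2] at h3
        exact hz2 h3
      refine ⟨f z, h1, h2, ?_, ?_⟩
      · have := ((adj_iff hfo hcl z (o q)).1 hzq').2
        rw [hfo] at this
        rcases this with h | h
        · exact absurd h h1
        · exact h
      · intro h
        apply hzr'
        rw [adj_iff hfo hcl, hfo]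
        exact ⟨hzr, Or.inr h⟩
    by_cases hsub : ∀ z ∈ cl G (o q), z ∈ cl G (o r)
    · have : ∃ z, z ∈ cl G (o r) ∧ z ∉ cl G (o q) := by
        by_contra hcon
        push Not at hcon
        exact hne (Set.Subset.antisymm hsub hcon)
      obtain ⟨z, hz1, hz2⟩ := this
      obtain ⟨x, hx1, hx2, hx3, hx4⟩ := gen r q hqr'.symm z hz1 hz2
      exact ⟨x, hx2, hx1, fun h => hx4 (h.2 hx3)⟩
    · push Not at hsub
      obtain ⟨z, hz1, hz2⟩ := hsub
      obtain ⟨x, hx1, hx2, hx3, hx4⟩ := gen q r hqr' z hz1 hz2
      exact ⟨x, hx1, hx2, fun h => hx4 (h.1 hx3)⟩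
  · intro W hW hff s hs
    let W' : Finset V := W.image o
    have hW'm : ∀ x, x ∈ W' ↔ ∃ q ∈ W, o q = x := by
      intro x; simp only [W', mem_image]
    have hcn : Cn G W' := by
      refine ⟨⟨o s, (hW'm _).2 ⟨s, hs, rfl⟩⟩, ?_⟩
      intro P hP hPcl
      obtain ⟨z, hz, hPz⟩ := hP
      obtain ⟨q, hq, rfl⟩ := (hW'm z).1 hz
      have := hW.2 (fun r => P (o r)) ⟨q, hq, hPz⟩ (by
        intro a ha b hb hPa hab
        exact hPcl (o a) ((hW'm _).2 ⟨a, ha, rfl⟩) (o b) ((hW'm _).2 ⟨b, hb, rfl⟩) hPa hab)
      intro x hx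
      obtain ⟨r, hr, rfl⟩ := (hW'm x).1 hx
      exact this r hr
    have hff' : Ff G W' := by
      intro F hFs hF
      let F' : Finset Q := W.filter (fun q => o q ∈ F)
      have hF'm : ∀ q, q ∈ F' ↔ q ∈ W ∧ o q ∈ F := by
        intro q; simp only [F', mem_filter]
      have hFo : ∀ x ∈ F, ∃ q ∈ F', o q = x := by
        intro x hx
        obtain ⟨q, hq, rfl⟩ := (hW'm x).1 (hFs hx)
        exact ⟨q, (hF'm q).2 ⟨hq, hx⟩, rfl⟩
      apply hff F' (filter_subset _ _)
      refine ⟨⟨?_, ?_⟩, ?_⟩
      · obtain ⟨x, hx⟩ := hF.1.1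
        obtain ⟨q, hq, _⟩ := hFo x hx
        exact ⟨q, hq⟩
      · intro P hP hPcl
        obtain ⟨q, hq, hPq⟩ := hP
        have := hF.1.2 (fun x => P (f x)) ⟨o q, ((hF'm q).1 hq).2, by rw [hfo]; exact hPq⟩ (by
          intro a ha b hb hPa hab
          obtain ⟨a', ha', rfl⟩ := hFo a ha
          obtain ⟨b', hb', rfl⟩ := hFo b hb
          rw [hfo] at hPa ⊢
          exact hPcl a' ha' b' hb' hPa hab)
        intro r hr
        have h := this (o r) ((hF'm r).1 hr).2
        rwa [hfo] at h
      · intro u hu t ht hadj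
        have huF : o u ∉ F := by
          intro h
          obtain ⟨q, hq, hqu⟩ := hFo _ h
          exact hu (hoi hqu ▸ hq)
        obtain ⟨s', hs', hne, h'⟩ := hF.2 (o u) huF (o t) ((hF'm t).1 ht).2 hadj
        obtain ⟨q, hq, rfl⟩ := hFo s' hs'
        exact ⟨q, hq, fun h => hne (by rw [h]), h'⟩
    obtain ⟨u, huW, hus, hu⟩ := hstar W' hcn hff' (o s) ((hW'm _).2 ⟨s, hs, rfl⟩)
    by_cases hfu : f u ∈ W
    · -- then W is a single vertex
      have hne : u ≠ o (f u) := by
        intro h
        exact huW ((hW'm u).2 ⟨f u, hfu, h.symm⟩)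
      have hadj : G.Adj u (o (f u)) := by
        rw [adj_iff hfo hcl]
        exact ⟨hne, Or.inl (hfo _).symm⟩
      have h1 : o (f u) = o s := hu _ ((hW'm _).2 ⟨f u, hfu, rfl⟩) hadj
      have h2 : f u = s := hoi h1
      have hall : ∀ x ∈ W, x = s := by
        apply hW.2 (fun x => x = s) ⟨s, hs, rfl⟩
        intro a _ b hb hab hadj'
        subst hab
        by_contra hbs
        have h3 : G.Adj u (o b) := by
          rw [adj_iff hfo hcl]
          refine ⟨?_, Or.inr ?_⟩
          · intro h4
            exact huW ((hW'm u).2 ⟨b, hb, h4.symm⟩)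
          · rw [h2, hfo]; exact hadj'
        exact hbs (hoi (hu _ ((hW'm _).2 ⟨b, hb, rfl⟩) h3))
      obtain ⟨r, hr⟩ := hnb s
      refine ⟨r, ?_, hr, ?_⟩
      · intro h; exact hr.ne (hall r h)
      · intro s' hs' _; exact hall s' hs'
    · refine ⟨f u, hfu, ?_, ?_⟩
      · have := ((adj_iff hfo hcl u (o s)).1 hus).2
        rw [hfo] at this
        rcases this with h | h
        · exact absurd (h ▸ hs) hfu
        · exact h
      · intro s' hs' hadj
        have hadj' : G.Adj u (o s') := by
          rw [adj_iff hfo hcl, hfo]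
          refine ⟨?_, Or.inr hadj⟩
          intro h
          exact huW ((hW'm u).2 ⟨s', hs', h.symm⟩)
        exact hoi (hu _ ((hW'm _).2 ⟨s', hs', rfl⟩) hadj')

end red

/-- The structure theorem. -/
theorem structure_thm {V : Type*} [Fintype V] [DecidableEq V] (G : SimpleGraph V)
    (hconn : Cn G univ)
    (hstar : ∀ W, Cn G W → Ff G W → ∀ s ∈ W, ∃ u, Pv G W s u) :
    (∀ u v, u ≠ v → G.Adj u v) ∨
    ∃ t, 2 ≤ t ∧ ∃ c : V → Fin t × Bool, Function.Surjective c ∧
      ∀ u v, G.Adj u v ↔ (u ≠ v ∧ ¬ ((c u).1 = (c v).1 ∧ (c u).2 ≠ (c v).2)) := by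
  classical
  let st : Setoid V := Setoid.ker (cl G)
  let Q := Quotient st
  let f : V → Q := Quotient.mk st
  let o : Q → V := Quotient.out
  have : Fintype Q := Fintype.ofFinite _
  have hfo : ∀ q, f (o q) = q := fun q => Quotient.out_eq q
  have hcl : ∀ u v, f u = f v ↔ cl G u = cl G v := by
    intro u v
    exact Quotient.eq (r := st)
  by_cases htwo : ∃ a b : Q, a ≠ b
  · right
    have hgood := good_red hfo hcl hconn hstar htwo
    have hone := one_nonneighbour hgood
    choose σ hσ hσu using hone
    simp only at hσ hσu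
    have hσσ : ∀ q, σ (σ q) = q := by
      intro q
      refine (hσu (σ q) q ⟨(hσ q).1.symm, fun h => (hσ q).2 h.symm⟩).symm
    have hadj : ∀ u v, G.Adj u v ↔ (u ≠ v ∧ f v ≠ σ (f u)) := by
      intro u v
      rw [adj_iff hfo hcl]
      constructor
      · rintro ⟨h1, h2⟩
        refine ⟨h1, ?_⟩
        intro h3
        rcases h2 with h2 | h2
        · exact (hσ (f u)).1 (h3.symm.trans h2.symm)
        · rw [h3] at h2; exact (hσ (f u)).2 h2
      · rintro ⟨h1, h2⟩
        refine ⟨h1, ?_⟩
        by_contra h3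
        push Not at h3
        exact h2 (hσu (f u) (f v) ⟨fun h => h3.1 h.symm, h3.2⟩)
    -- pairs
    let g : Q → Set Q := fun q => {q, σ q}
    have hg : ∀ q r, g q = g r ↔ (r = q ∨ r = σ q) := by
      intro q r
      constructor
      · intro h
        have : r ∈ g q := by rw [h]; exact Or.inl rfl
        exact this
      · rintro (h | h)
        · rw [h]
        · simp only [g, h, hσσ]
          exact Set.pair_comm _ _
    let P := Set.range g
    have : Finite P := Set.finite_range g
    obtain ⟨t, ⟨e⟩⟩ := Finite.exists_equiv_fin P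
    let ix : Q → Fin t := fun q => e ⟨g q, q, rfl⟩
    have hix : ∀ q r, ix q = ix r ↔ (r = q ∨ r = σ q) := by
      intro q r
      rw [← hg]
      constructor
      · intro h
        have := e.injective h
        exact congrArg Subtype.val this
      · intro h
        simp only [ix, h]
    have hrep : ∀ p : P, ∃ q, g q = p.1 := fun p => p.2
    choose rep hrep using hrep
    let sd : Q → Bool := fun q => decide (q = rep ⟨g q, q, rfl⟩)
    have hsd : ∀ q, sd (σ q) ≠ sd q := by
      intro q
      have h1 : g (σ q) = g q := ((hg (σ q) q).2 (Or.inr (hσσ q).symm))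
      have h2 : (⟨g (σ q), σ q, rfl⟩ : P) = ⟨g q, q, rfl⟩ := Subtype.ext h1
      have h3 := hrep ⟨g q, q, rfl⟩
      simp only at h3
      have h4 := (hg q (rep ⟨g q, q, rfl⟩)).1 h3.symm
      simp only [sd, h2]
      intro h5
      have h6 : (σ q = rep ⟨g q, q, rfl⟩ ↔ q = rep ⟨g q, q, rfl⟩) := by
        rw [decide_eq_decide] at h5; exact h5
      rcases h4 with h7 | h7
      · have := h6.2 h7.symm
        exact (hσ q).1 (this.trans h7)
      · have := h6.1 h7.symm
        exact (hσ q).1 (this.trans h7).symm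
    refine ⟨t, ?_, fun v => (ix (f v), sd (f v)), ?_, ?_⟩
    · -- at least two pairs
      obtain ⟨a, b, hab⟩ := htwo
      obtain ⟨r, hr⟩ := exists_nb hgood a
      have h1 : ix a ≠ ix r := by
        intro h
        rcases (hix a r).1 h with h2 | h2
        · exact hr.ne h2
        · rw [h2] at hr; exact (hσ a).2 hr.symm
      by_contra ht
      have : Subsingleton (Fin t) := by
        interval_cases t
        · infer_instance
        · infer_instance
      exact h1 (Subsingleton.elim _ _)
    · rintro ⟨i, b⟩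
      obtain ⟨p, rfl⟩ := e.surjective i
      obtain ⟨S, q, rfl⟩ := p
      by_cases hb : sd q = b
      · refine ⟨o q, ?_⟩
        simp only [hfo, hb, ix]
      · refine ⟨o (σ q), ?_⟩
        simp only [hfo]
        have h1 : ix (σ q) = ix q := (hix (σ q) q).2 (Or.inr (hσσ q).symm)
        have h2 := hsd q
        rw [h1]
        refine Prod.ext rfl ?_
        exact bool_third _ _ _ h2 hb
    · intro u v
      rw [hadj]
      refine and_congr_right (fun _ => not_congr ?_)
      simp only
      rw [hix]
      constructor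
      · intro h
        rw [h]
        exact ⟨Or.inr rfl, (hsd (f u)).symm⟩
      · rintro ⟨h1 | h1, h2⟩
        · rw [h1] at h2; exact absurd rfl h2
        · exact h1
  · left
    push Not at htwo
    intro u v huv
    have h := htwo (f u) (f v)
    rw [adj_iff hfo hcl]
    exact ⟨huv, Or.inl h⟩

end Pool.Agent.Q185.PSD
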