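import Pool.Agent.Q185.PSD.Core

/-!
A maximum connected set without forts can be taken to be a star.
-/

set_option linter.unusedSectionVars false

namespace Pool.Agent.Q185.PSD

open Finset

variable {V : Type*} [Fintype V] [DecidableEq V]
variable {G : SimpleGraph V}

/-- one step inside `W` -/
def St (G : SimpleGraph V) (W : Finset V) (a b : V) : Prop := a ∈ W ∧ b ∈ W ∧ G.Adj a b

/-- reachable inside `W` -/
def Rc (G : SimpleGraph V) (W : Finset V) (a b : V) : Prop := Relation.ReflTransGen (St G W) a b

lemma St.symm' {W : Finset V} {a b : V} (h : St G W a b) : St G W b a := ⟨h.2.1, h.1, h.2.2.symm⟩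

lemma Rc.symm' {W : Finset V} {a b : V} (h : Rc G W a b) : Rc G W b a := by
  induction h with
  | refl => exact Relation.ReflTransGen.refl
  | tail _ h2 ih => exact Relation.ReflTransGen.head h2.symm' ih

lemma Rc.mem {W : Finset V} {a b : V} (h : Rc G W a b) (ha : a ∈ W) : b ∈ W := by
  induction h with
  | refl => exact ha
  | tail _ h2 _ => exact h2.2.1

lemma cn_of_rc {W : Finset V} {x : V} (hx : x ∈ W) (h : ∀ z ∈ W, Rc G W x z) : Cn G W := by
  refine ⟨⟨x, hx⟩, ?_⟩
  intro P hP hcl
  have key : ∀ a b, Rc G W a b → P a → P b := by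
    intro a b hab hPa
    induction hab with
    | refl => exact hPa
    | tail _ h2 ih => exact hcl _ h2.1 _ h2.2.1 ih h2.2.2
  obtain ⟨z, hz, hPz⟩ := hP
  have hPx : P x := key z x (h z hz).symm' hPz
  intro y hy
  exact key x y (h y hy) hPx

open Classical in
/-- leaves at `x` inside `W` -/
noncomputable def Lf (G : SimpleGraph V) (W : Finset V) (x : V) : Finset V :=
  W.filter (fun l => G.Adj l x ∧ ∀ s ∈ W, G.Adj l s → s = x)

lemma mem_lf {W : Finset V} {x l : V} :
    l ∈ Lf G W x ↔ l ∈ W ∧ G.Adj l x ∧ ∀ s ∈ W, G.Adj l s → s = x := by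
  unfold Lf
  simp only [mem_filter]

/-- centred frame -/
def CF (G : SimpleGraph V) (m : ℕ) (S : Finset V) (y : V) : Prop :=
  S.card = m ∧ (∀ a ∈ S, ∀ b ∈ S, ¬ G.Adj a b) ∧ ∀ a ∈ S, G.Adj y a

section good

variable (hG : Good G) {m : ℕ} (hm : Mx G m)
include hG hm

lemma exists_cf (hex : ∃ W, Bs G m W) : ∃ S y, CF G m S y := by
  classical
  obtain ⟨W0, hW0⟩ := hex
  obtain ⟨x0, hx0⟩ := hW0.1.1
  obtain ⟨⟨W, x⟩, hWx, hmax⟩ := Finset.exists_max_image
    ((univ : Finset (Finset V × V)).filter (fun q => Bs G m q.1 ∧ q.2 ∈ q.1))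
    (fun q => (Lf G q.1 q.2).card)
    ⟨(W0, x0), by simp only [mem_filter, mem_univ, true_and]; exact ⟨hW0, hx0⟩⟩
  simp only [mem_filter, mem_univ, true_and] at hWx hmax
  obtain ⟨hW, hx⟩ := hWx
  obtain ⟨p, hp⟩ := hG.star W hW.1 hW.2.1 x hx
  obtain ⟨F, hFs, hF, hpF⟩ := exists_fort hG hm hW hp.1
  have hxF : x ∈ F := mem_fort_self hG hFs hF hpF hp
  have hpx : p ≠ x := by
    intro h; subst h; exact hp.1 hx
  have hpW : ∀ s ∈ W, s ≠ x → ¬ G.Adj p s := fun s hs hne h => hne (hp.2.2 s hs h)
  have hLF : ∀ l ∈ Lf G W x, l ∈ F := by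
    intro l hl
    rw [mem_lf] at hl
    obtain ⟨hlW, hlx, hl⟩ := hl
    by_contra hlF
    obtain ⟨s', hs', hne, hadj⟩ := hF.2 l hlF x hxF hlx
    rcases mem_insert.1 (hFs hs') with h' | h'
    · subst h'
      exact hpW l hlW hlx.ne hadj.symm
    · exact hne (hl s' h' hadj)
  -- the set of other elements of the fort
  by_cases hZ : ∃ f ∈ F, f ≠ p ∧ f ≠ x ∧ f ∉ Lf G W x
  · exfalso
    -- choose the best one
    let T := F.filter (fun f => f ≠ p ∧ f ≠ x ∧ f ∉ Lf G W x)
    let A : V → Finset V := fun f => univ.filter (fun z => Rc G (W.erase f) x z)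
    obtain ⟨f, hf, hfmax⟩ := Finset.exists_max_image T (fun f => (A f).card) (by
      obtain ⟨f, hf, h⟩ := hZ
      exact ⟨f, mem_filter.2 ⟨hf, h⟩⟩)
    obtain ⟨hfF, hfp, hfx, hfL⟩ := mem_filter.1 hf
    have hfW : f ∈ W := by
      rcases mem_insert.1 (hFs hfF) with h | h
      · exact absurd h hfp
      · exact h
    have hxE : x ∈ W.erase f := mem_erase.2 ⟨Ne.symm hfx, hx⟩
    have hAmem : ∀ z, z ∈ A f ↔ Rc G (W.erase f) x z := by
      intro z; simp only [A, mem_filter, mem_univ, true_and]
    have hAW : ∀ z ∈ A f, z ∈ W.erase f := fun z hz => ((hAmem z).1 hz).mem hxE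
    have hAcl : ∀ a ∈ A f, ∀ b ∈ W.erase f, G.Adj a b → b ∈ A f := by
      intro a ha b hb hab
      rw [hAmem] at ha ⊢
      exact Relation.ReflTransGen.tail ha ⟨ha.mem hxE, hb, hab⟩
    have hxA : x ∈ A f := (hAmem x).2 Relation.ReflTransGen.refl
    have hLA : ∀ l ∈ Lf G W x, l ∈ A f := by
      intro l hl
      have hl' := mem_lf.1 hl
      apply hAcl x hxA l _ hl'.2.1.symm
      refine mem_erase.2 ⟨?_, hl'.1⟩
      intro h; subst h; exact hfL hl
    by_cases hconn : ∀ z ∈ W.erase f, z ∈ A f
    · -- then the exchange gives one more leaf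
      have hcnE : Cn G (W.erase f) := cn_of_rc hxE (fun z hz => (hAmem z).1 (hconn z hz))
      have hcn' : Cn G (insert p (W.erase f)) := cn_insert hcnE hxE hp.2.1
      have hB := exchange hG hW hp.1 hFs hF hpF hfF hfp hcn'
      have hle := hmax (insert p (W.erase f), x) ⟨hB, mem_insert_of_mem hxE⟩
      have hsub : insert p (Lf G W x) ⊆ Lf G (insert p (W.erase f)) x := by
        intro l hl
        rw [mem_lf]
        rcases mem_insert.1 hl with h | h
        · subst h
          refine ⟨mem_insert_self _ _, hp.2.1, ?_⟩
          intro s hs hadj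
          rcases mem_insert.1 hs with h' | h'
          · subst h'; exact absurd hadj (G.loopless.irrefl _)
          · exact hp.2.2 s (mem_of_mem_erase h') hadj
        · have h' := mem_lf.1 h
          refine ⟨mem_insert_of_mem (hAW l (hLA l h)), h'.2.1, ?_⟩
          intro s hs hadj
          rcases mem_insert.1 hs with h'' | h''
          · subst h''
            exact absurd hadj.symm (hpW l h'.1 h'.2.1.ne)
          · exact h'.2.2 s (mem_of_mem_erase h'') hadj
      have hpL : p ∉ Lf G W x := fun h => hp.1 (mem_lf.1 h).1
      have := card_le_card hsub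
      rw [card_insert_of_notMem hpL] at this
      simp only at hle
      omega
    · push Not at hconn
      obtain ⟨c0, hc0, hc0A⟩ := hconn
      -- a vertex outside A adjacent to f
      have hc : ∃ c ∈ W.erase f, c ∉ A f ∧ G.Adj c f := by
        by_contra hcon
        push Not at hcon
        have h1 : ∀ z ∈ W, z ∈ A f ∨ z = f := by
          apply hW.1.2
          · exact ⟨x, hx, Or.inl hxA⟩
          · intro a ha b hb hab hadj
            by_cases hbf : b = f
            · exact Or.inr hbf
            have hbE : b ∈ W.erase f := mem_erase.2 ⟨hbf, hb⟩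
            rcases hab with h | h
            · exact Or.inl (hAcl a h b hbE hadj)
            · subst h
              left
              by_contra hbA
              exact hcon b hbE hbA hadj.symm
        rcases h1 c0 (mem_of_mem_erase hc0) with h | h
        · exact hc0A h
        · exact (mem_erase.1 hc0).1 h
      obtain ⟨c, hcE, hcA, hcf⟩ := hc
      by_cases hg : ∃ g ∈ F, g ∈ W.erase f ∧ g ∉ A f
      · obtain ⟨g, hgF, hgE, hgA⟩ := hg
        have hgp : g ≠ p := by
          intro h; subst h; exact hp.1 (mem_of_mem_erase hgE)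
        have hgx : g ≠ x := by
          intro h; subst h; exact hgA hxA
        have hgL : g ∉ Lf G W x := fun h => hgA (hLA g h)
        have hle := hfmax g (mem_filter.2 ⟨hgF, hgp, hgx, hgL⟩)
        have hfg : f ≠ g := fun h => (mem_erase.1 hgE).1 h.symm
        have hsub1 : ∀ z ∈ A f, z ∈ A g := by
          intro z hz
          rw [hAmem] at hz
          simp only [A, mem_filter, mem_univ, true_and]
          induction hz with
          | refl => exact Relation.ReflTransGen.refl
          | @tail b c' hb hbc ih =>
            refine Relation.ReflTransGen.tail ih ?_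
            have hbA : b ∈ A f := (hAmem b).2 hb
            have hcA' : c' ∈ A f := (hAmem c').2 (Relation.ReflTransGen.tail hb hbc)
            refine ⟨mem_erase.2 ⟨?_, mem_of_mem_erase hbc.1⟩,
              mem_erase.2 ⟨?_, mem_of_mem_erase hbc.2.1⟩, hbc.2.2⟩
            · intro h; subst h; exact hgA hbA
            · intro h; subst h; exact hgA hcA'
        have hfA : f ∉ A f := fun h => (mem_erase.1 (hAW f h)).1 rfl
        -- f is adjacent to some vertex of A
        have ha : ∃ a ∈ A f, G.Adj a f := by
          by_contra hcon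
          push Not at hcon
          have h1 : ∀ z ∈ W, z ∈ A f := by
            apply hW.1.2
            · exact ⟨x, hx, hxA⟩
            · intro a ha b hb hab hadj
              have hbf : b ≠ f := by
                intro h; subst h; exact hcon a hab hadj
              exact hAcl a hab b (mem_erase.2 ⟨hbf, hb⟩) hadj
          exact hfA (h1 f hfW)
        obtain ⟨a, haA, haf⟩ := ha
        have hfAg : f ∈ A g := by
          have haG := hsub1 a haA
          simp only [A, mem_filter, mem_univ, true_and] at haG ⊢
          refine Relation.ReflTransGen.tail haG ⟨?_, mem_erase.2 ⟨hfg, hfW⟩, haf⟩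
          refine mem_erase.2 ⟨?_, mem_of_mem_erase (hAW a haA)⟩
          intro h; subst h; exact hgA haA
        have hsub : insert f (A f) ⊆ A g := by
          intro z hz
          rcases mem_insert.1 hz with h | h
          · subst h; exact hfAg
          · exact hsub1 z h
        have := card_le_card hsub
        rw [card_insert_of_notMem hfA] at this
        omega
      · push Not at hg
        have hcF : c ∉ F := fun h => hcA (hg c h hcE)
        obtain ⟨s', hs', hne, hadj⟩ := hF.2 c hcF f hfF hcf
        have hcW := mem_of_mem_erase hcE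
        rcases mem_insert.1 (hFs hs') with h' | h'
        · subst h'
          have hcx : c ≠ x := by
            intro h; subst h; exact hcA hxA
          exact hpW c hcW hcx hadj.symm
        · have hsE : s' ∈ W.erase f := mem_erase.2 ⟨hne, h'⟩
          have hsA : s' ∈ A f := hg s' hs' hsE
          exact hcA (hAcl s' hsA c hcE hadj.symm)
  · push Not at hZ
    -- W is a star
    have hWx : ∀ w ∈ W, w = x ∨ w ∈ Lf G W x := by
      apply hW.1.2
      · exact ⟨x, hx, Or.inl rfl⟩
      · intro a ha b hb hab hadj
        rcases hab with h | h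
        · subst h
          by_cases hbF : b ∈ F
          · by_cases hba : b = a
            · exact Or.inl hba
            · right
              exact hZ b hbF (fun h => hp.1 (h ▸ hb)) hba
          · exfalso
            obtain ⟨s', hs', hne, hadj'⟩ := hF.2 b hbF a hxF hadj.symm
            by_cases hsp : s' = p
            · subst hsp
              exact hpW b hb hadj.symm.ne hadj'.symm
            · have hsL := hZ s' hs' hsp hne
              have := (mem_lf.1 hsL).2.2 b hb hadj'.symm
              exact hadj.ne this.symm
        · left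
          exact (mem_lf.1 h).2.2 b hb hadj
    have hWeq : W = insert x (Lf G W x) := by
      ext w
      rw [mem_insert]
      constructor
      · exact hWx w
      · rintro (h | h)
        · exact h ▸ hx
        · exact (mem_lf.1 h).1
    have hxL : x ∉ Lf G W x := fun h => (mem_lf.1 h).2.1.ne rfl
    have hpL : p ∉ Lf G W x := fun h => hp.1 (mem_lf.1 h).1
    refine ⟨insert p (Lf G W x), x, ?_, ?_, ?_⟩
    · rw [card_insert_of_notMem hpL, ← card_insert_of_notMem hxL, ← hWeq, hW.2.2]
    · have hL1 : ∀ a ∈ Lf G W x, ∀ b ∈ Lf G W x, ¬ G.Adj a b := by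
        intro a ha b hb hab
        have := (mem_lf.1 ha).2.2 b (mem_lf.1 hb).1 hab
        subst this
        exact hxL hb
      have hL2 : ∀ a ∈ Lf G W x, ¬ G.Adj p a := by
        intro a ha
        exact hpW a (mem_lf.1 ha).1 (mem_lf.1 ha).2.1.ne
      intro a ha b hb
      rcases mem_insert.1 ha with h | h
      · subst h
        rcases mem_insert.1 hb with h' | h'
        · subst h'; exact G.loopless.irrefl _
        · exact hL2 b h'
      · rcases mem_insert.1 hb with h' | h'
        · subst h'; exact fun h'' => hL2 a h h''.symm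
        · exact hL1 a h b h'
    · intro a ha
      rcases mem_insert.1 ha with h | h
      · subst h; exact hp.2.1.symm
      · exact (mem_lf.1 h).2.1.symm

end good

end Pool.Agent.Q185.PSD
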